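import Mathlib

set_option autoImplicit false

/-!
# Positions of the strong Ramsey game on the complete graph on `ℕ` with a book as target

`X` is the player who wants to win, `Y` the player who wants to prevent this.  A position is a pair
of finite edge sets `R` (the edges of `X`) and `B` (the edges of `Y`).
-/

namespace Pool.Agent.helper55.Book

/-- Edges of the complete graph on `ℕ`, as unordered pairs. -/
abbrev E := Sym2 ℕ

/-- The common neighbours of `u` and `v` in the edge set `R`. -/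
def F (R : Finset E) (u v : ℕ) : Set ℕ := {x | x ≠ u ∧ x ≠ v ∧ s(u, x) ∈ R ∧ s(v, x) ∈ R}

/-- The edge set `R` contains a book with four pages. -/
def G (R : Finset E) : Prop := ∃ a b, a ≠ b ∧ s(a, b) ∈ R ∧ 4 ≤ (F R a b).encard

/-- The edge `e` may still be claimed. -/
def Free (R B : Finset E) (e : E) : Prop := ¬ e.IsDiag ∧ e ∉ R ∧ e ∉ B

/-- A family of positions with `X` to move is closed if `X` cannot win at once and `Y` always has
an answer which wins or leads back to the family. -/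
def Closed (S : Finset E → Finset E → Prop) : Prop :=
  ∀ R B, S R B → ∀ e, Free R B e → ¬ G (insert e R) ∧
    ∃ f, Free (insert e R) B f ∧ (G (insert f B) ∨ S (insert e R) (insert f B))

/-- With `X` to move, `Y` can prevent `X` from winning. -/
def D (R B : Finset E) : Prop := ∃ S, Closed S ∧ S R B

/-- With `Y` to move, `Y` can prevent `X` from winning. -/
def DY (R B : Finset E) : Prop := ∃ f, Free R B f ∧ (G (insert f B) ∨ D R (insert f B))

theorem F_comm (R : Finset E) (u v : ℕ) : F R u v = F R v u := by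
  ext x
  simp only [F, Set.mem_ofPred_eq]
  tauto

theorem F_mono {R R' : Finset E} (h : R ⊆ R') (u v : ℕ) : F R u v ⊆ F R' u v :=
  fun _ hx => ⟨hx.1, hx.2.1, h hx.2.2.1, h hx.2.2.2⟩

theorem G_mono {R R' : Finset E} (h : R ⊆ R') (hG : G R) : G R' := by
  obtain ⟨a, b, hab, he, hF⟩ := hG
  exact ⟨a, b, hab, h he, hF.trans (Set.encard_le_encard (F_mono h a b))⟩

theorem mem_swap' {R : Finset E} {a b : ℕ} (h : s(a, b) ∈ R) : s(b, a) ∈ R :=
  (Sym2.eq_swap : s(a, b) = s(b, a)) ▸ h

theorem exists_bound (R : Finset E) : ∃ n : ℕ, ∀ x y, s(x, y) ∈ R → x < n := by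
  classical
  induction R using Finset.induction_on with
  | empty => exact ⟨0, fun x y h => by simp at h⟩
  | insert e R _ ih =>
    obtain ⟨n, hn⟩ := ih
    induction e using Sym2.ind with
    | _ a b =>
      refine ⟨max n (max a b + 1), fun x y h => ?_⟩
      rw [Finset.mem_insert] at h
      rcases h with h | h
      · rw [Sym2.eq_iff] at h
        rcases h with ⟨rfl, rfl⟩ | ⟨rfl, rfl⟩ <;> omega
      · exact lt_of_lt_of_le (hn x y h) (le_max_left _ _)

/-- There are vertices, as large as we want, not touched by given finite edge sets. -/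
theorem exists_fresh (R B : Finset E) (n : ℕ) :
    ∃ x, n ≤ x ∧ (∀ y, s(x, y) ∉ R) ∧ ∀ y, s(x, y) ∉ B := by
  obtain ⟨a, ha⟩ := exists_bound R
  obtain ⟨b, hb⟩ := exists_bound B
  refine ⟨max n (max a b), le_max_left _ _, fun y h => ?_, fun y h => ?_⟩
  · have := ha _ _ h
    omega
  · have := hb _ _ h
    omega

theorem exists_free (R B : Finset E) : ∃ e, Free R B e := by
  obtain ⟨x, _, h1, h2⟩ := exists_fresh R B 0
  exact ⟨s(x, x + 1), by simp, h1 _, h2 _⟩

theorem closed_D : Closed D := by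
  rintro R B ⟨S, hS, h⟩ e he
  obtain ⟨h1, f, hf, h2⟩ := hS R B h e he
  refine ⟨h1, f, hf, h2.imp id fun h3 => ⟨S, hS, h3⟩⟩

/-- Coinduction up to `D`. -/
theorem D_coind (S : Finset E → Finset E → Prop)
    (h : ∀ R B, S R B → ∀ e, Free R B e → ¬ G (insert e R) ∧
      ∃ f, Free (insert e R) B f ∧
        (G (insert f B) ∨ D (insert e R) (insert f B) ∨ S (insert e R) (insert f B)))
    {R B : Finset E} (hS : S R B) : D R B := by
  refine ⟨fun R B => D R B ∨ S R B, ?_, Or.inr hS⟩
  rintro R B (hD | hS') e he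
  · obtain ⟨h1, f, hf, h2⟩ := closed_D R B hD e he
    exact ⟨h1, f, hf, h2.imp id Or.inl⟩
  · obtain ⟨h1, f, hf, h2⟩ := h R B hS' e he
    exact ⟨h1, f, hf, h2⟩

theorem D_intro {R B : Finset E}
    (h : ∀ e, Free R B e → ¬ G (insert e R) ∧ DY (insert e R) B) : D R B := by
  refine D_coind (fun R' B' => R' = R ∧ B' = B) ?_ ⟨rfl, rfl⟩
  rintro R' B' ⟨rfl, rfl⟩ e he
  obtain ⟨h1, f, hf, h2⟩ := h e he
  exact ⟨h1, f, hf, h2.imp id Or.inl⟩

theorem D_step {R B : Finset E} (h : D R B) {e : E} (he : Free R B e) :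
    ¬ G (insert e R) ∧ DY (insert e R) B := by
  obtain ⟨h1, f, hf, h2⟩ := closed_D R B h e he
  exact ⟨h1, f, hf, h2⟩

/-- `D` is monotone: fewer edges of `X` and more edges of `Y` do not hurt `Y`. -/
theorem D_mono {R B R' B' : Finset E} (h : D R B) (hR : R' ⊆ R) (hB : B ⊆ B') : D R' B' := by
  refine ⟨fun R' B' => ∃ R B, D R B ∧ R' ⊆ R ∧ B ⊆ B', ?_, R, B, h, hR, hB⟩
  clear h hR hB
  rintro R' B' ⟨R, B, h, hR, hB⟩ e he
  by_cases heR : e ∈ R
  · have hG : ¬ G R := by
      obtain ⟨e', he'⟩ := exists_free R B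
      exact fun hG => (D_step h he').1 (G_mono (Finset.subset_insert _ _) hG)
    have hsub : insert e R' ⊆ R := Finset.insert_subset heR hR
    obtain ⟨g, hg⟩ := exists_free (insert e R') B'
    exact ⟨fun h2 => hG (G_mono hsub h2), g, hg,
      Or.inr ⟨R, B, h, hsub, hB.trans (Finset.subset_insert _ _)⟩⟩
  · obtain ⟨h1, f, hf, h2⟩ := D_step h (e := e) ⟨he.1, heR, fun h3 => he.2.2 (hB h3)⟩
    have hsub : insert e R' ⊆ insert e R := Finset.insert_subset_insert _ hR
    refine ⟨fun h3 => h1 (G_mono hsub h3), ?_⟩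
    by_cases hfB : f ∈ B'
    · obtain ⟨g, hg⟩ := exists_free (insert e R') B'
      have hsub2 : insert f B ⊆ insert g B' :=
        (Finset.insert_subset hfB hB).trans (Finset.subset_insert _ _)
      refine ⟨g, hg, ?_⟩
      rcases h2 with h2 | h2
      · exact Or.inl (G_mono hsub2 h2)
      · exact Or.inr ⟨_, _, h2, hsub, hsub2⟩
    · refine ⟨f, ⟨hf.1, fun h3 => hf.2.1 (hsub h3), hfB⟩, ?_⟩
      have hsub2 : insert f B ⊆ insert f B' := Finset.insert_subset_insert _ hB
      rcases h2 with h2 | h2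
      · exact Or.inl (G_mono hsub2 h2)
      · exact Or.inr ⟨_, _, h2, hsub, hsub2⟩

theorem DY_mono {R B R' B' : Finset E} (h : DY R B) (hR : R' ⊆ R) (hB : B ⊆ B') : DY R' B' := by
  obtain ⟨f, hf, h2⟩ := h
  by_cases hfB : f ∈ B'
  · obtain ⟨g, hg⟩ := exists_free R' B'
    have hsub2 : insert f B ⊆ insert g B' :=
      (Finset.insert_subset hfB hB).trans (Finset.subset_insert _ _)
    refine ⟨g, hg, ?_⟩
    rcases h2 with h2 | h2
    · exact Or.inl (G_mono hsub2 h2)
    · exact Or.inr (D_mono h2 hR hsub2)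
  · refine ⟨f, ⟨hf.1, fun h3 => hf.2.1 (hR h3), hfB⟩, ?_⟩
    have hsub2 : insert f B ⊆ insert f B' := Finset.insert_subset_insert _ hB
    rcases h2 with h2 | h2
    · exact Or.inl (G_mono hsub2 h2)
    · exact Or.inr (D_mono h2 hR hsub2)

/-! ### Renaming the vertices -/

/-- Renaming of edges. -/
def ren (π : Equiv.Perm ℕ) (R : Finset E) : Finset E := R.image (Sym2.map π)

theorem map_symm_map (π : Equiv.Perm ℕ) (e : E) : Sym2.map π.symm (Sym2.map π e) = e := by
  induction e using Sym2.ind with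
  | _ a b => simp

theorem map_map_symm (π : Equiv.Perm ℕ) (e : E) : Sym2.map π (Sym2.map π.symm e) = e := by
  induction e using Sym2.ind with
  | _ a b => simp

theorem mem_ren {π : Equiv.Perm ℕ} {R : Finset E} {e : E} :
    e ∈ ren π R ↔ Sym2.map π.symm e ∈ R := by
  unfold ren
  rw [Finset.mem_image]
  constructor
  · rintro ⟨f, hf, rfl⟩
    rwa [map_symm_map]
  · intro h
    exact ⟨_, h, map_map_symm π e⟩

theorem mem_ren_mk {π : Equiv.Perm ℕ} {R : Finset E} {a b : ℕ} :
    s(π a, π b) ∈ ren π R ↔ s(a, b) ∈ R := by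
  rw [mem_ren, Sym2.map_mk, Equiv.symm_apply_apply, Equiv.symm_apply_apply]

theorem ren_insert (π : Equiv.Perm ℕ) (R : Finset E) (e : E) :
    ren π (insert e R) = insert (Sym2.map π e) (ren π R) := by
  unfold ren
  rw [Finset.image_insert]

theorem ren_ren_symm (π : Equiv.Perm ℕ) (R : Finset E) : ren π (ren π.symm R) = R := by
  ext e
  rw [mem_ren, mem_ren, Equiv.symm_symm, map_map_symm]

theorem card_ren (π : Equiv.Perm ℕ) (R : Finset E) : (ren π R).card = R.card :=
  Finset.card_image_of_injective _ (Sym2.map.injective π.injective)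

theorem F_ren (π : Equiv.Perm ℕ) (R : Finset E) (u v : ℕ) :
    F (ren π R) (π u) (π v) = π '' F R u v := by
  ext x
  constructor
  · rintro ⟨h1, h2, h3, h4⟩
    refine ⟨π.symm x, ⟨?_, ?_, ?_, ?_⟩, by simp⟩
    · rintro rfl
      simp at h1
    · rintro rfl
      simp at h2
    · rw [← mem_ren_mk (π := π)]
      simpa using h3
    · rw [← mem_ren_mk (π := π)]
      simpa using h4
  · rintro ⟨y, ⟨h1, h2, h3, h4⟩, rfl⟩
    exact ⟨fun h => h1 (π.injective h), fun h => h2 (π.injective h), mem_ren_mk.mpr h3,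
      mem_ren_mk.mpr h4⟩

theorem G_ren {π : Equiv.Perm ℕ} {R : Finset E} (h : G R) : G (ren π R) := by
  obtain ⟨a, b, hab, he, hF⟩ := h
  refine ⟨π a, π b, fun h => hab (π.injective h), mem_ren_mk.mpr he, ?_⟩
  rw [F_ren, π.injective.encard_image]
  exact hF

theorem G_of_ren {π : Equiv.Perm ℕ} {R : Finset E} (h : G (ren π R)) : G R := by
  have h2 := G_ren (π := π.symm) h
  rwa [show ren π.symm (ren π R) = R by
    have := ren_ren_symm π.symm R
    rwa [Equiv.symm_symm] at this] at h2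

theorem Free_ren {π : Equiv.Perm ℕ} {R B : Finset E} {e : E} :
    Free (ren π R) (ren π B) (Sym2.map π e) ↔ Free R B e := by
  unfold Free
  rw [Sym2.isDiag_map π.injective, mem_ren, mem_ren, map_symm_map]

theorem D_ren (π : Equiv.Perm ℕ) {R B : Finset E} (h : D R B) : D (ren π R) (ren π B) := by
  refine ⟨fun R' B' => ∃ R B, D R B ∧ R' = ren π R ∧ B' = ren π B, ?_, R, B, h, rfl, rfl⟩
  clear h
  rintro _ _ ⟨R, B, h, rfl, rfl⟩ e he
  rw [← map_map_symm π e, Free_ren] at he
  obtain ⟨h1, f, hf, h2⟩ := D_step h he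
  refine ⟨fun h3 => h1 (G_of_ren (π := π) ?_), Sym2.map π f, ?_, ?_⟩
  · rwa [ren_insert, map_map_symm]
  · rw [← map_map_symm π e, ← ren_insert, Free_ren]
    exact hf
  · rcases h2 with h2 | h2
    · left
      rw [← ren_insert]
      exact G_ren h2
    · right
      refine ⟨_, _, h2, ?_, ?_⟩
      · rw [ren_insert, map_map_symm]
      · rw [ren_insert]

end Pool.Agent.helper55.Book
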