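import Pool.Agent.helper55.Book.Game
import Pool.Agent.helper85.RG.Basic

set_option autoImplicit false

namespace Pool.Agent.helper55.Ramsey

open Pool.Agent.helper85

theorem isBook_of_G {R : Finset (Sym2 ℕ)} (h : Book.G R) : RG.IsBook 4 R := by
  obtain ⟨a, b, hab, he, hF⟩ := h
  obtain ⟨t, ht, hk⟩ := Set.exists_subset_encard_eq hF
  have hfin : t.Finite := Set.finite_of_encard_eq_coe hk
  refine ⟨a, b, hfin.toFinset, hab, he, ?_, ?_⟩
  · rw [hfin.encard_eq_coe_toFinset_card] at hk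
    exact_mod_cast hk
  · intro w hw
    exact ht (hfin.mem_toFinset.mp hw)

theorem G_of_isBook {R : Finset (Sym2 ℕ)} (h : RG.IsBook 4 R) : Book.G R := by
  obtain ⟨a, b, W, hab, he, hW, hw⟩ := h
  refine ⟨a, b, hab, he, ?_⟩
  have hsub : (W : Set ℕ) ⊆ Book.F R a b := fun w hw' => hw w hw'
  refine le_trans ?_ (Set.encard_le_encard hsub)
  rw [Set.encard_coe_eq_coe_finsetCard, hW]
  norm_num

theorem isDraw_of_safe (h : RG.Safe ∅ ∅) : IsDraw (⊤ : SimpleGraph ℕ) target := by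
  refine isDraw_of_closed (S := RG.Safe) ?_ h ?_ exists_strategy
  · intro R B hS e he heR heB
    obtain ⟨h1, f, hf1, hf2, hf3, h2⟩ := hS.step ⟨mem_edgeSet_top.mp he, heR, heB⟩
    exact ⟨fun h3 => h1 (isBook_of_G (G_of_hasCopy h3)), f, mem_edgeSet_top.mpr hf1, hf2, hf3,
      h2.imp (fun h => hasCopy_of_G (G_of_isBook h)) id⟩
  · intro e _
    exact h.mono (Finset.Subset.refl _) (Finset.empty_subset _)

end Pool.Agent.helper55.Ramsey
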