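import Mathlib

set_option autoImplicit false

/-!
# The strong Ramsey game: definitions
-/

namespace Pool.Agent.helper55.Ramsey

variable {V W : Type}

/-- The edge set `S` contains a copy of the graph `H` (a subgraph isomorphic to `H`). -/
def HasCopy (H : SimpleGraph W) (S : Set (Sym2 V)) : Prop :=
  ∃ f : W ↪ V, ∀ x y, H.Adj x y → s(f x, f y) ∈ S

/-- An infinite play on the board `K`: the players claim edges of `K` one after the other, never the
same edge twice. The edge `e k` is claimed at time `k`. -/
def IsPlay (K : SimpleGraph V) (e : ℕ → Sym2 V) : Prop :=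
  (∀ k, e k ∈ K.edgeSet) ∧ Function.Injective e

/-- The edges claimed before time `n` at the times `k` with `k % 2 = i`. The first player claims
at the times with `k % 2 = 0`, the second player at the times with `k % 2 = 1`. -/
def claimed (e : ℕ → Sym2 V) (i n : ℕ) : Set (Sym2 V) := {x | ∃ k < n, k % 2 = i ∧ e k = x}

/-- The first player is the first one to own a copy of `H`. -/
def P1Wins (H : SimpleGraph W) (e : ℕ → Sym2 V) : Prop :=
  ∃ n, HasCopy H (claimed e 0 n) ∧ ¬ HasCopy H (claimed e 1 n)

/-- The second player is the first one to own a copy of `H`. -/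
def P2Wins (H : SimpleGraph W) (e : ℕ → Sym2 V) : Prop :=
  ∃ n, HasCopy H (claimed e 1 n) ∧ ¬ HasCopy H (claimed e 0 n)

/-- The list of the edges claimed before time `n`. -/
def history (e : ℕ → Sym2 V) (n : ℕ) : List (Sym2 V) := (List.range n).map e

/-- A strategy on the board `K`: it answers every finite history with an edge of `K` which does not
occur in it. -/
def IsStrategy (K : SimpleGraph V) (σ : List (Sym2 V) → Sym2 V) : Prop :=
  ∀ h, σ h ∈ K.edgeSet ∧ σ h ∉ h

/-- The strategy `σ` is winning for the first player. -/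
def P1Winning (K : SimpleGraph V) (H : SimpleGraph W) (σ : List (Sym2 V) → Sym2 V) : Prop :=
  IsStrategy K σ ∧ ∀ e, IsPlay K e → (∀ k, k % 2 = 0 → e k = σ (history e k)) → P1Wins H e

/-- The strategy `σ` is winning for the second player. -/
def P2Winning (K : SimpleGraph V) (H : SimpleGraph W) (σ : List (Sym2 V) → Sym2 V) : Prop :=
  IsStrategy K σ ∧ ∀ e, IsPlay K e → (∀ k, k % 2 = 1 → e k = σ (history e k)) → P2Wins H e

/-- The strong Ramsey game with board `K` and target `H` is a draw: no player has a winning
strategy. -/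
def IsDraw (K : SimpleGraph V) (H : SimpleGraph W) : Prop :=
  (¬ ∃ σ, P1Winning K H σ) ∧ ¬ ∃ σ, P2Winning K H σ

/-- The graph `K₆ ∖ K₄`: all edges with at least one end among the vertices `0` and `1`. -/
def target : SimpleGraph (Fin 6) where
  Adj x y := x ≠ y ∧ (x.val < 2 ∨ y.val < 2)
  symm := ⟨fun _ _ h => ⟨h.1.symm, h.2.symm⟩⟩
  loopless := ⟨fun _ h => h.1 rfl⟩

end Pool.Agent.helper55.Ramsey
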