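import Pool.Agent.helper55.Book.Basic
import Pool.Agent.helper55.Book.Defs

set_option autoImplicit false

/-!
# The strong Ramsey game on an infinite board
-/

namespace Pool.Agent.helper55.Ramsey

variable {V W : Type}

/-! ### Plays following two strategies -/

theorem HasCopy.mono {H : SimpleGraph W} {S T : Set (Sym2 V)} (h : HasCopy H S) (hST : S ⊆ T) :
    HasCopy H T := by
  obtain ⟨f, hf⟩ := h
  exact ⟨f, fun x y hxy => hST (hf x y hxy)⟩

theorem claimed_mono (e : ℕ → Sym2 V) (i : ℕ) {m n : ℕ} (h : m ≤ n) :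
    claimed e i m ⊆ claimed e i n := by
  rintro x ⟨k, hk, h1, h2⟩
  exact ⟨k, by omega, h1, h2⟩

theorem history_succ (e : ℕ → Sym2 V) (n : ℕ) : history e (n + 1) = history e n ++ [e n] := by
  simp [history, List.range_succ]

theorem mem_history {e : ℕ → Sym2 V} {n : ℕ} {x : Sym2 V} :
    x ∈ history e n ↔ ∃ k < n, e k = x := by
  simp [history]

/-- The history produced by the strategies `σ 0` and `σ 1`. -/
def run (σ : ℕ → List (Sym2 V) → Sym2 V) : ℕ → List (Sym2 V)
  | 0 => []
  | n + 1 => run σ n ++ [σ (n % 2) (run σ n)]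

theorem history_run (σ : ℕ → List (Sym2 V) → Sym2 V) (n : ℕ) :
    history (fun k => σ (k % 2) (run σ k)) n = run σ n := by
  induction n with
  | zero => rfl
  | succ n ih => rw [history_succ, ih]; rfl

theorem exists_play {K : SimpleGraph V} {σ ρ : List (Sym2 V) → Sym2 V} (hσ : IsStrategy K σ)
    (hρ : IsStrategy K ρ) : ∃ e, IsPlay K e ∧ (∀ k, k % 2 = 0 → e k = σ (history e k)) ∧
      ∀ k, k % 2 = 1 → e k = ρ (history e k) := by
  set τ : ℕ → List (Sym2 V) → Sym2 V := fun i => if i = 0 then σ else ρ with hτ
  have hτs : ∀ i, IsStrategy K (τ i) := by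
    intro i
    simp only [hτ]
    split_ifs
    · exact hσ
    · exact hρ
  refine ⟨fun k => τ (k % 2) (run τ k), ⟨fun k => (hτs _ _).1, ?_⟩, ?_, ?_⟩
  · have key : ∀ j k, j < k → τ (j % 2) (run τ j) ≠ τ (k % 2) (run τ k) := by
      intro j k hjk h
      have h1 := (hτs (k % 2) (run τ k)).2
      rw [← h, ← history_run τ k, mem_history] at h1
      exact h1 ⟨j, hjk, rfl⟩
    intro j k h
    by_contra hne
    rcases Nat.lt_or_gt_of_ne hne with h1 | h1
    · exact key j k h1 h
    · exact key k j h1 h.symm
  · intro k hk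
    rw [history_run]
    simp only [hτ, hk, if_true]
  · intro k hk
    rw [history_run]
    simp only [hτ, hk, one_ne_zero, if_false]

/-! ### From a closed family of positions to strategies -/

section

variable {K : SimpleGraph V} {H : SimpleGraph W}

/-- The edges claimed before time `n` at the times of parity `i`, as a finite set. -/
noncomputable def cl (e : ℕ → Sym2 V) (i n : ℕ) : Finset (Sym2 V) := by
  classical
  exact ((Finset.range n).filter fun k => k % 2 = i).image e

theorem mem_cl {e : ℕ → Sym2 V} {i n : ℕ} {x : Sym2 V} :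
    x ∈ cl e i n ↔ ∃ k < n, k % 2 = i ∧ e k = x := by
  classical
  simp [cl, and_assoc]

theorem coe_cl (e : ℕ → Sym2 V) (i n : ℕ) : (cl e i n : Set (Sym2 V)) = claimed e i n := by
  ext x
  rw [Finset.mem_coe, mem_cl]
  rfl

theorem cl_succ_self [DecidableEq (Sym2 V)] (e : ℕ → Sym2 V) {i n : ℕ} (h : n % 2 = i) :
    cl e i (n + 1) = insert (e n) (cl e i n) := by
  ext x
  rw [Finset.mem_insert, mem_cl, mem_cl]
  constructor
  · rintro ⟨k, hk, h1, h2⟩
    by_cases hkn : k = n
    · left
      rw [← h2, hkn]
    · exact Or.inr ⟨k, by omega, h1, h2⟩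
  · rintro (rfl | ⟨k, hk, h1, h2⟩)
    · exact ⟨n, by omega, h, rfl⟩
    · exact ⟨k, by omega, h1, h2⟩

theorem cl_succ_other (e : ℕ → Sym2 V) {i n : ℕ} (h : n % 2 ≠ i) :
    cl e i (n + 1) = cl e i n := by
  ext x
  rw [mem_cl, mem_cl]
  constructor
  · rintro ⟨k, hk, h1, h2⟩
    refine ⟨k, ?_, h1, h2⟩
    by_contra hlt
    have : k = n := by omega
    rw [this] at h1
    exact h h1
  · rintro ⟨k, hk, h1, h2⟩
    exact ⟨k, by omega, h1, h2⟩

/-- The edges at the positions of parity `i` of a list. -/
noncomputable def par (h : List (Sym2 V)) (i : ℕ) : Finset (Sym2 V) := by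
  classical
  exact ((Finset.range h.length).filter fun k => k % 2 = i).biUnion
    fun k => (h[k]?).toList.toFinset

theorem par_history (e : ℕ → Sym2 V) (n i : ℕ) : par (history e n) i = cl e i n := by
  classical
  ext x
  rw [mem_cl]
  unfold par
  rw [Finset.mem_biUnion]
  constructor
  · rintro ⟨k, hk, hx⟩
    rw [Finset.mem_filter, Finset.mem_range] at hk
    have hk1 : k < n := by simpa [history] using hk.1
    have hget : (history e n)[k]? = some (e k) := by
      simp [history, hk1]
    rw [hget] at hx
    exact ⟨k, hk1, hk.2, by simpa [eq_comm] using hx⟩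
  · rintro ⟨k, hk, h1, h2⟩
    refine ⟨k, ?_, ?_⟩
    · rw [Finset.mem_filter, Finset.mem_range]
      exact ⟨by simpa [history] using hk, h1⟩
    · have hget : (history e n)[k]? = some (e k) := by
        simp [history, hk]
      rw [hget]
      simp [h2]

variable [DecidableEq (Sym2 V)]

/-- The answers of the player `j` we want. -/
def Good (K : SimpleGraph V) (H : SimpleGraph W) (S : Finset (Sym2 V) → Finset (Sym2 V) → Prop)
    (j : ℕ) (h : List (Sym2 V)) (f : Sym2 V) : Prop :=
  f ∈ K.edgeSet ∧ f ∉ h ∧ (HasCopy H ((insert f (par h j) : Finset (Sym2 V)) : Set (Sym2 V)) ∨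
    S (par h (1 - j)) (insert f (par h j)))

open Classical in
/-- A strategy which never loses. -/
noncomputable def strat (K : SimpleGraph V) (H : SimpleGraph W)
    (S : Finset (Sym2 V) → Finset (Sym2 V) → Prop) (j : ℕ) (d : List (Sym2 V) → Sym2 V)
    (h : List (Sym2 V)) : Sym2 V :=
  if hx : ∃ f, Good K H S j h f then hx.choose else d h

theorem strat_isStrategy {S : Finset (Sym2 V) → Finset (Sym2 V) → Prop} {j : ℕ}
    {d : List (Sym2 V) → Sym2 V} (hd : IsStrategy K d) : IsStrategy K (strat K H S j d) := by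
  intro h
  unfold strat
  split_ifs with hx
  · exact ⟨hx.choose_spec.1, hx.choose_spec.2.1⟩
  · exact hd h

theorem strat_spec {S : Finset (Sym2 V) → Finset (Sym2 V) → Prop} {j : ℕ}
    {d : List (Sym2 V) → Sym2 V} {h : List (Sym2 V)} (hx : ∃ f, Good K H S j h f) :
    Good K H S j h (strat K H S j d h) := by
  unfold strat
  rw [dif_pos hx]
  exact hx.choose_spec

/-- A family of positions closed for the player who moves second in it. -/
def ClosedFor (K : SimpleGraph V) (H : SimpleGraph W)
    (S : Finset (Sym2 V) → Finset (Sym2 V) → Prop) : Prop :=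
  ∀ R B, S R B → ∀ e ∈ K.edgeSet, e ∉ R → e ∉ B →
    ¬ HasCopy H ((insert e R : Finset (Sym2 V)) : Set (Sym2 V)) ∧
    ∃ f ∈ K.edgeSet, f ∉ insert e R ∧ f ∉ B ∧
      (HasCopy H ((insert f B : Finset (Sym2 V)) : Set (Sym2 V)) ∨ S (insert e R) (insert f B))

theorem not_win {S : Finset (Sym2 V) → Finset (Sym2 V) → Prop} (hS : ClosedFor K H S)
    {j x : ℕ} (hjx : (j = 1 ∧ x = 0) ∨ (j = 0 ∧ x = 1)) {d : List (Sym2 V) → Sym2 V}
    {e : ℕ → Sym2 V} (he : IsPlay K e)
    (hfol : ∀ k, k % 2 = j → e k = strat K H S j d (history e k))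
    (hstart : S (cl e x x) (cl e j x)) (n : ℕ) (hn : HasCopy H (claimed e x n)) :
    HasCopy H (claimed e j n) := by
  have hx1 : 1 - j = x := by omega
  have key : ∀ n, (∃ m, HasCopy H (claimed e j m) ∧ ¬ HasCopy H (claimed e x m)) ∨
      (S (cl e x (2 * n + x)) (cl e j (2 * n + x))) := by
    intro n
    induction n with
    | zero => exact Or.inr (by simpa using hstart)
    | succ n ih =>
      rcases ih with ih | ih
      · exact Or.inl ih
      · set t := 2 * n + x with ht
        have htx : t % 2 = x := by omega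
        have htj : t % 2 ≠ j := by omega
        have ht1j : (t + 1) % 2 = j := by omega
        have ht1x : (t + 1) % 2 ≠ x := by omega
        have hnot : ∀ i, e t ∉ cl e i t := by
          intro i hmem
          rw [mem_cl] at hmem
          obtain ⟨k, hk, _, h2⟩ := hmem
          have := he.2 h2
          omega
        obtain ⟨h1, f, hf, hfR, hfB, h2⟩ := hS _ _ ih (e t) (he.1 t) (hnot x) (hnot j)
        have hx' : cl e x (t + 1) = insert (e t) (cl e x t) := cl_succ_self e htx
        have hj' : cl e j (t + 1) = cl e j t := cl_succ_other e htj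
        have hgood : Good K H S j (history e (t + 1)) (e (t + 1)) := by
          rw [hfol (t + 1) ht1j]
          apply strat_spec
          refine ⟨f, hf, ?_, ?_⟩
          · rw [mem_history]
            rintro ⟨k, hk, h3⟩
            by_cases hkx : k % 2 = x
            · apply hfR
              rw [← hx', mem_cl]
              exact ⟨k, hk, hkx, h3⟩
            · apply hfB
              rw [← hj', mem_cl]
              exact ⟨k, hk, by omega, h3⟩
          · rw [hx1, par_history, par_history, hx', hj']
            exact h2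
        obtain ⟨_, _, h3⟩ := hgood
        rw [hx1, par_history, par_history] at h3
        have hx2 : cl e x (t + 2) = insert (e t) (cl e x t) := by
          rw [← hx']
          exact cl_succ_other e ht1x
        have hj2 : cl e j (t + 2) = insert (e (t + 1)) (cl e j (t + 1)) := cl_succ_self e ht1j
        rcases h3 with h3 | h3
        · left
          refine ⟨t + 2, ?_, ?_⟩
          · rw [← coe_cl, hj2]
            exact h3
          · rw [← coe_cl, hx2]
            exact h1
        · right
          have h4 : 2 * (n + 1) + x = t + 2 := by omega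
          rw [h4, hx2, hj2, ← hx']
          exact h3
  rcases key n with ⟨m, h1, h2⟩ | h1
  · by_cases hmn : m ≤ n
    · exact h1.mono (claimed_mono e j hmn)
    · exact absurd (hn.mono (claimed_mono e x (by omega))) h2
  · exfalso
    set t := 2 * n + x with ht
    have hnot : ∀ i, e t ∉ cl e i t := by
      intro i hmem
      rw [mem_cl] at hmem
      obtain ⟨k, hk, _, h2⟩ := hmem
      have := he.2 h2
      omega
    refine (hS _ _ h1 (e t) (he.1 t) (hnot x) (hnot j)).1 (hn.mono ?_)
    intro y hy
    rw [Finset.mem_coe, Finset.mem_insert]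
    right
    have := claimed_mono e x (show n ≤ t by omega) hy
    rwa [← coe_cl] at this

theorem isDraw_of_closed {S : Finset (Sym2 V) → Finset (Sym2 V) → Prop} (hS : ClosedFor K H S)
    (h0 : S ∅ ∅) (h1 : ∀ e ∈ K.edgeSet, S ∅ {e}) (hd : ∃ d, IsStrategy K d) : IsDraw K H := by
  obtain ⟨d, hd⟩ := hd
  constructor
  · rintro ⟨σ, hσ, hwin⟩
    obtain ⟨e, he, hf0, hf1⟩ := exists_play hσ
      (strat_isStrategy (K := K) (H := H) (S := S) (j := 1) hd)
    obtain ⟨n, hn1, hn2⟩ := hwin e he hf0
    refine hn2 (not_win hS (Or.inl ⟨rfl, rfl⟩) he hf1 ?_ n hn1)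
    have h2 : ∀ i, cl e i 0 = ∅ := by
      intro i
      ext x
      rw [mem_cl]
      simp
    rw [h2, h2]
    exact h0
  · rintro ⟨σ, hσ, hwin⟩
    obtain ⟨e, he, hf0, hf1⟩ := exists_play
      (strat_isStrategy (K := K) (H := H) (S := S) (j := 0) hd) hσ
    obtain ⟨n, hn1, hn2⟩ := hwin e he hf1
    refine hn2 (not_win hS (Or.inr ⟨rfl, rfl⟩) he hf0 ?_ n hn1)
    have h2 : cl e 1 1 = ∅ := by
      ext x
      rw [mem_cl]
      simp
    have h3 : cl e 0 1 = {e 0} := by
      ext x
      rw [mem_cl, Finset.mem_singleton]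
      constructor
      · rintro ⟨k, hk, _, h4⟩
        have : k = 0 := by omega
        rw [← h4, this]
      · rintro rfl
        exact ⟨0, by omega, rfl, rfl⟩
    rw [h2, h3]
    exact h1 _ (he.1 0)

end

/-! ### The game on the complete graph on `ℕ` with target `K₆ ∖ K₄` -/

theorem mem_edgeSet_top {e : Sym2 ℕ} : e ∈ (⊤ : SimpleGraph ℕ).edgeSet ↔ ¬ e.IsDiag := by
  induction e using Sym2.ind with
  | _ a b => simp

theorem exists_strategy : ∃ d, IsStrategy (⊤ : SimpleGraph ℕ) d := by
  have h : ∀ l : List (Sym2 ℕ), ∃ e : Sym2 ℕ, e ∈ (⊤ : SimpleGraph ℕ).edgeSet ∧ e ∉ l := by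
    intro l
    obtain ⟨e, he⟩ := Book.exists_free l.toFinset ∅
    exact ⟨e, mem_edgeSet_top.mpr he.1, fun h => he.2.1 (List.mem_toFinset.mpr h)⟩
  choose d hd using h
  exact ⟨d, hd⟩

theorem G_of_hasCopy {R : Finset (Sym2 ℕ)} (h : HasCopy target (R : Set (Sym2 ℕ))) :
    Book.G R := by
  obtain ⟨f, hf⟩ := h
  refine ⟨f 0, f 1, fun h => absurd (f.injective h) (by decide), ?_, ?_⟩
  · exact Finset.mem_coe.mp (hf 0 1 ⟨by decide, Or.inl (by decide)⟩)
  · have hsub : Set.range (fun i : Fin 4 => f (i.natAdd 2)) ⊆ Book.F R (f 0) (f 1) := by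
      rintro _ ⟨i, rfl⟩
      have h0 : (Fin.natAdd 2 i : Fin 6) ≠ 0 := by
        intro h
        have := congrArg Fin.val h
        simp [Fin.natAdd] at this
      have h1 : (Fin.natAdd 2 i : Fin 6) ≠ 1 := by
        intro h
        have := congrArg Fin.val h
        simp [Fin.natAdd] at this
        omega
      exact ⟨fun h => h0 (f.injective h), fun h => h1 (f.injective h),
        Finset.mem_coe.mp (hf 0 _ ⟨h0.symm, Or.inl (by decide)⟩),
        Finset.mem_coe.mp (hf 1 _ ⟨h1.symm, Or.inl (by decide)⟩)⟩
    refine le_trans ?_ (Set.encard_le_encard hsub)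
    have hinj : Function.Injective (fun i : Fin 4 => f (i.natAdd 2)) := by
      intro i j hij
      exact Fin.natAdd_injective 4 2 (f.injective hij)
    rw [← Set.image_univ, hinj.encard_image, Set.encard_univ]
    simp

theorem hasCopy_of_G {R : Finset (Sym2 ℕ)} (h : Book.G R) :
    HasCopy target (R : Set (Sym2 ℕ)) := by
  obtain ⟨a, b, hab, he, hF⟩ := h
  obtain ⟨t, ht, hk⟩ := Set.exists_subset_encard_eq hF
  have hfin : t.Finite := Set.finite_of_encard_eq_coe hk
  have hcard : hfin.toFinset.card = 4 := by
    rw [hfin.encard_eq_coe_toFinset_card] at hk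
    exact_mod_cast hk
  set p : Fin 4 → ℕ := fun i => (hfin.toFinset.equivFinOfCardEq hcard).symm i with hp
  have hpinj : Function.Injective p := by
    intro i j hij
    exact (hfin.toFinset.equivFinOfCardEq hcard).symm.injective (Subtype.ext hij)
  have hpF : ∀ i, p i ∈ Book.F R a b := by
    intro i
    apply ht
    exact hfin.mem_toFinset.mp ((hfin.toFinset.equivFinOfCardEq hcard).symm i).2
  set g : Fin 6 → ℕ := ![a, b, p 0, p 1, p 2, p 3] with hg
  have hginj : Function.Injective g := by
    have h0 := hpF 0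
    have h1 := hpF 1
    have h2 := hpF 2
    have h3 := hpF 3
    have h01 : p 0 ≠ p 1 := fun h => absurd (hpinj h) (by decide)
    have h02 : p 0 ≠ p 2 := fun h => absurd (hpinj h) (by decide)
    have h03 : p 0 ≠ p 3 := fun h => absurd (hpinj h) (by decide)
    have h12 : p 1 ≠ p 2 := fun h => absurd (hpinj h) (by decide)
    have h13 : p 1 ≠ p 3 := fun h => absurd (hpinj h) (by decide)
    have h23 : p 2 ≠ p 3 := fun h => absurd (hpinj h) (by decide)
    intro i j hij
    fin_cases i <;> fin_cases j <;> simp only [hg] at hij ⊢ <;>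
      first
      | rfl
      | (exfalso
         simp at hij
         first
         | exact hab hij
         | exact hab hij.symm
         | exact h0.1 hij
         | exact h0.1 hij.symm
         | exact h0.2.1 hij
         | exact h0.2.1 hij.symm
         | exact h1.1 hij
         | exact h1.1 hij.symm
         | exact h1.2.1 hij
         | exact h1.2.1 hij.symm
         | exact h2.1 hij
         | exact h2.1 hij.symm
         | exact h2.2.1 hij
         | exact h2.2.1 hij.symm
         | exact h3.1 hij
         | exact h3.1 hij.symm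
         | exact h3.2.1 hij
         | exact h3.2.1 hij.symm
         | exact h01 hij
         | exact h01 hij.symm
         | exact h02 hij
         | exact h02 hij.symm
         | exact h03 hij
         | exact h03 hij.symm
         | exact h12 hij
         | exact h12 hij.symm
         | exact h13 hij
         | exact h13 hij.symm
         | exact h23 hij
         | exact h23 hij.symm)
  refine ⟨⟨g, hginj⟩, ?_⟩
  have h0 := hpF 0
  have h1 := hpF 1
  have h2 := hpF 2
  have h3 := hpF 3
  have hba := Book.mem_swap' he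
  have key : ∀ x y : Fin 6, x.val < 2 → x ≠ y → s(g x, g y) ∈ R := by
    intro x y hx hxy
    fin_cases x
    · fin_cases y
      · exact absurd rfl hxy
      · exact he
      · exact h0.2.2.1
      · exact h1.2.2.1
      · exact h2.2.2.1
      · exact h3.2.2.1
    · fin_cases y
      · exact hba
      · exact absurd rfl hxy
      · exact h0.2.2.2
      · exact h1.2.2.2
      · exact h2.2.2.2
      · exact h3.2.2.2
    all_goals
      exfalso
      simp at hx
  rintro x y ⟨hne, hxy | hxy⟩
  · exact key x y hxy hne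
  · have h4 := key y x hxy hne.symm
    exact Book.mem_swap' h4

theorem isDraw_of_D (h : Book.D ∅ ∅) : IsDraw (⊤ : SimpleGraph ℕ) target := by
  refine isDraw_of_closed (S := Book.D) ?_ h ?_ exists_strategy
  · intro R B hD e he heR heB
    obtain ⟨h1, f, hf, h2⟩ := Book.D_step hD ⟨mem_edgeSet_top.mp he, heR, heB⟩
    exact ⟨fun h3 => h1 (G_of_hasCopy h3), f, mem_edgeSet_top.mpr hf.1, hf.2.1, hf.2.2,
      h2.imp hasCopy_of_G id⟩
  · intro e _
    exact Book.D_mono h (Finset.Subset.refl _) (Finset.empty_subset _)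

end Pool.Agent.helper55.Ramsey
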