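import Pool.Agent.helper55.Book.Basic

set_option autoImplicit false

/-!
# The player who owns a book with three pages and has the move can threaten for ever
-/

namespace Pool.Agent.helper55.Book

theorem mem_swap {R : Finset E} {a b : ℕ} (h : s(a, b) ∈ R) : s(b, a) ∈ R :=
  (Sym2.eq_swap : s(a, b) = s(b, a)) ▸ h

theorem F_insert_sub (R : Finset E) (g : E) (u v : ℕ) :
    ∃ x, F (insert g R) u v ⊆ insert x (F R u v) := by
  by_cases h : F (insert g R) u v ⊆ F R u v
  · exact ⟨0, h.trans (Set.subset_insert _ _)⟩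
  · rw [Set.not_subset] at h
    obtain ⟨x, hx, hx'⟩ := h
    refine ⟨x, fun y hy => ?_⟩
    by_cases hy' : y ∈ F R u v
    · exact Or.inr hy'
    · left
      have key : ∀ z, z ∈ F (insert g R) u v → z ∉ F R u v → g = s(u, z) ∨ g = s(v, z) := by
        intro z hz hz'
        obtain ⟨h1, h2, h3, h4⟩ := hz
        rw [Finset.mem_insert] at h3 h4
        rcases h3 with h3 | h3
        · exact Or.inl h3.symm
        · rcases h4 with h4 | h4
          · exact Or.inr h4.symm
          · exact absurd ⟨h1, h2, h3, h4⟩ hz'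
      have hxu := hx.1
      have hxv := hx.2.1
      have hyu := hy.1
      have hyv := hy.2.1
      rcases key x hx hx' with h1 | h1 <;> rcases key y hy hy' with h2 | h2 <;>
        rw [h1, Sym2.eq_iff] at h2 <;> rcases h2 with ⟨h3, h4⟩ | ⟨h3, h4⟩ <;> omega

theorem F_insert_le (R : Finset E) (g : E) (u v : ℕ) :
    (F (insert g R) u v).encard ≤ (F R u v).encard + 1 := by
  obtain ⟨x, hx⟩ := F_insert_sub R g u v
  exact (Set.encard_le_encard hx).trans (Set.encard_insert_le _ _)

/-- An edge joining `u` and `v` does not contribute to the common neighbours of `u` and `v`. -/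
theorem F_insert_self (R : Finset E) (u v : ℕ) : F (insert s(u, v) R) u v = F R u v := by
  refine Set.Subset.antisymm ?_ (F_mono (Finset.subset_insert _ _) _ _)
  rintro x ⟨h1, h2, h3, h4⟩
  rw [Finset.mem_insert, Sym2.eq_iff] at h3 h4
  refine ⟨h1, h2, ?_, ?_⟩
  · rcases h3 with (⟨_, h⟩ | ⟨_, h⟩) | h
    · exact absurd h h2
    · exact absurd h h1
    · exact h
  · rcases h4 with (⟨_, h⟩ | ⟨_, h⟩) | h
    · exact absurd h h2
    · exact absurd h h1
    · exact h

/-- `X` cannot win with one more edge. -/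
def NoWin (R B : Finset E) : Prop := ∀ g, ¬ g.IsDiag → g ∉ B → ¬ G (insert g R)

/-- `X` has no book with three pages whose base contains `d`. -/
def NoBase (R : Finset E) (d : ℕ) : Prop := ∀ y, y ≠ d → s(d, y) ∈ R → (F R d y).encard ≤ 2

theorem NoWin.mono {R B R' B' : Finset E} (h : NoWin R B) (hR : R' ⊆ R) (hB : B ⊆ B') :
    NoWin R' B' :=
  fun g hg hgB hG => h g hg (fun h2 => hgB (hB h2)) (G_mono (Finset.insert_subset_insert _ hR) hG)

/-- The positions in the infinite phase. -/
def InfPos (R B : Finset E) : Prop :=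
  ∃ c d x, c ≠ d ∧ s(c, d) ∈ B ∧ 3 ≤ (F B c d).encard ∧ NoWin R B ∧ NoBase R d ∧
    s(c, x) ∈ B ∧ s(d, x) ∉ B ∧ x ≠ c ∧ x ≠ d ∧ ∀ y, s(x, y) ∉ R

theorem noWin_star {R B : Finset E} {d x : ℕ} (h1 : NoWin R B) (h2 : NoBase R d)
    (hxd : x ≠ d) (hx : ∀ y, s(x, y) ∉ R) {f : E} :
    NoWin (insert s(d, x) R) (insert f B) := by
  rintro g hg hgB ⟨a, b, hab, he, hF⟩
  rw [Finset.mem_insert, not_or] at hgB
  obtain ⟨hgf, hgB⟩ := hgB
  -- edges at `x`
  have hxe : ∀ y, s(x, y) ∈ insert g (insert s(d, x) R) → g = s(x, y) ∨ y = d := by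
    intro y hy
    rw [Finset.mem_insert, Finset.mem_insert] at hy
    rcases hy with hy | hy | hy
    · exact Or.inl hy.symm
    · rw [Sym2.eq_iff] at hy
      rcases hy with ⟨h3, h4⟩ | ⟨h3, h4⟩
      · exact absurd h3 hxd
      · exact Or.inr h4
    · exact absurd hy (hx y)
  -- edges not at `x`
  have hnx : ∀ y z, y ≠ x → z ≠ x → s(y, z) ∈ insert g (insert s(d, x) R) →
      s(y, z) ∈ insert g R := by
    intro y z hy hz h
    rw [Finset.mem_insert, Finset.mem_insert] at h
    rw [Finset.mem_insert]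
    rcases h with h | h | h
    · exact Or.inl h
    · rw [Sym2.eq_iff] at h
      rcases h with ⟨h3, h4⟩ | ⟨h3, h4⟩
      · exact absurd h4 hz
      · exact absurd h3 hy
    · exact Or.inr h
  have hbase : ∀ a b, a ≠ b → 4 ≤ (F (insert g (insert s(d, x) R)) a b).encard → a ≠ x := by
    rintro a b hab hF rfl
    have hsub : F (insert g (insert s(d, a) R)) a b ⊆ insert d {y | g = s(a, y)} := by
      rintro y ⟨h3, h4, h5, h6⟩
      rcases hxe y h5 with h7 | h7
      · exact Or.inr h7
      · exact Or.inl h7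
    have hsub2 : {y | g = s(a, y)}.encard ≤ 1 := by
      rw [Set.encard_le_one_iff]
      intro y z hy hz
      have h3 : s(a, y) = s(a, z) := by rw [← hy, ← hz]
      rw [Sym2.eq_iff] at h3
      rcases h3 with ⟨_, h3⟩ | ⟨h3, h4⟩
      · exact h3
      · rw [h4, h3]
    have h3 : (4 : ℕ∞) ≤ 1 + 1 :=
      hF.trans ((Set.encard_le_encard hsub).trans ((Set.encard_insert_le _ _).trans
        (add_le_add_left hsub2 1)))
    exact absurd h3 (by decide)
  have hax : a ≠ x := hbase a b hab hF
  have hbx : b ≠ x := hbase b a hab.symm (by rwa [F_comm])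
  have he' := hnx a b hax hbx he
  by_cases hxF : x ∈ F (insert g (insert s(d, x) R)) a b
  · obtain ⟨_, _, h5, h6⟩ := hxF
    have h5 := mem_swap h5
    have h6 := mem_swap h6
    -- a general statement, to be used for both orders of the base
    have main : ∀ b, d ≠ b → b ≠ x → s(d, b) ∈ insert g R → g = s(x, b) →
        4 ≤ (F (insert g (insert s(d, x) R)) d b).encard → False := by
      intro b hdb hbx he' hg' hF
      have hdbR : s(d, b) ∈ R := by
        rw [Finset.mem_insert, hg', Sym2.eq_iff] at he'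
        rcases he' with (⟨h7, _⟩ | ⟨_, h7⟩) | h7
        · exact absurd h7.symm hxd
        · exact absurd h7 hbx
        · exact h7
      have hsub : F (insert g (insert s(d, x) R)) d b ⊆ insert x (F R d b) := by
        rintro y ⟨h7, h8, h9, h10⟩
        by_cases hyx : y = x
        · exact Or.inl hyx
        · right
          have h11 := hnx d y (Ne.symm hxd) hyx h9
          have h12 := hnx b y hbx hyx h10
          rw [Finset.mem_insert, hg', Sym2.eq_iff] at h11 h12
          refine ⟨h7, h8, ?_, ?_⟩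
          · rcases h11 with (⟨h13, _⟩ | ⟨_, h13⟩) | h13
            · exact absurd h13.symm hxd
            · exact absurd h13 hyx
            · exact h13
          · rcases h12 with (⟨h13, _⟩ | ⟨_, h13⟩) | h13
            · exact absurd h13 hbx
            · exact absurd h13 hyx
            · exact h13
      have h7 := h2 b hdb.symm hdbR
      have h8 : (4 : ℕ∞) ≤ 2 + 1 :=
        hF.trans ((Set.encard_le_encard hsub).trans ((Set.encard_insert_le _ _).trans
          (add_le_add_left h7 1)))
      exact absurd h8 (by decide)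
    rcases hxe a h5 with h7 | h7
    · rcases hxe b h6 with h8 | h8
      · rw [h7, Sym2.eq_iff] at h8
        rcases h8 with ⟨_, h8⟩ | ⟨h8, _⟩
        · exact hab h8
        · exact hbx h8.symm
      · subst h8
        refine main a hab.symm hax ?_ h7 (by rwa [F_comm])
        rw [Sym2.eq_swap]
        exact he'
    · subst h7
      rcases hxe b h6 with h8 | h8
      · exact main b hab hbx he' h8 hF
      · exact hab h8.symm
  · refine h1 g hg hgB ⟨a, b, hab, he', hF.trans (Set.encard_le_encard ?_)⟩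
    intro y hy
    have hyx : y ≠ x := fun h => hxF (h ▸ hy)
    exact ⟨hy.1, hy.2.1, hnx _ _ hax hyx hy.2.2.1, hnx _ _ hbx hyx hy.2.2.2⟩

theorem noBase_star {R : Finset E} {d x : ℕ} (h2 : NoBase R d)
    (hxd : x ≠ d) (hx : ∀ y, s(x, y) ∉ R) : NoBase (insert s(d, x) R) d := by
  intro y hyd hy
  by_cases hyx : y = x
  · subst hyx
    have : F (insert s(d, y) R) d y = ∅ := by
      rw [F_insert_self]
      ext z
      simp only [Set.mem_empty_iff_false, iff_false]
      exact fun hz => hx z hz.2.2.2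
    rw [this]
    simp
  · have hyR : s(d, y) ∈ R := by
      rw [Finset.mem_insert, Sym2.eq_iff] at hy
      rcases hy with (⟨_, h⟩ | ⟨h, _⟩) | h
      · exact absurd h hyx
      · exact absurd h.symm hxd
      · exact h
    refine (Set.encard_le_encard ?_).trans (h2 y hyd hyR)
    rintro z ⟨h3, h4, h5, h6⟩
    have hzx : z ≠ x := by
      rintro rfl
      rw [Finset.mem_insert, Sym2.eq_iff] at h6
      rcases h6 with (⟨h, _⟩ | ⟨h, _⟩) | h
      · exact hyd h
      · exact hyx h
      · rw [Sym2.eq_swap] at h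
        exact hx y h
    refine ⟨h3, h4, ?_, ?_⟩
    · rw [Finset.mem_insert, Sym2.eq_iff] at h5
      rcases h5 with (⟨_, h⟩ | ⟨h, _⟩) | h
      · exact absurd h hzx
      · exact absurd h.symm hxd
      · exact h
    · rw [Finset.mem_insert, Sym2.eq_iff] at h6
      rcases h6 with (⟨_, h⟩ | ⟨h, _⟩) | h
      · exact absurd h hzx
      · exact absurd h hyx
      · exact h

theorem three_add_one {S : Set ℕ} {x : ℕ} (h : 3 ≤ S.encard) (hx : x ∉ S) :
    4 ≤ (insert x S).encard := by
  rw [Set.encard_insert_of_notMem hx]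
  have : (4 : ℕ∞) = 3 + 1 := by norm_num
  rw [this]
  exact add_le_add_left h 1

theorem D_infPos {R B : Finset E} (h : InfPos R B) : D R B := by
  refine D_coind InfPos ?_ h
  clear h
  rintro R B ⟨c, d, x, hcd, hB, hF, hI, h3, hcx, hdx, hxc, hxd, hx⟩ e he
  refine ⟨hI e he.1 he.2.2, ?_⟩
  by_cases hed : e = s(d, x)
  · subst hed
    obtain ⟨x', hx'n, hx'R, hx'B⟩ := exists_fresh (insert s(d, x) R) B (c + d + x + 1)
    have hx'R' : ∀ y, s(x', y) ∉ R := fun y h => hx'R y (Finset.mem_insert_of_mem h)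
    refine ⟨s(c, x'), ⟨?_, ?_, ?_⟩, Or.inr (Or.inr ?_)⟩
    · rw [Sym2.mk_isDiag_iff]
      omega
    · exact fun h => hx'R c (mem_swap h)
    · exact fun h => hx'B c (mem_swap h)
    · refine ⟨c, d, x', hcd, Finset.mem_insert_of_mem hB, ?_, ?_, ?_, Finset.mem_insert_self _ _,
        ?_, by omega, by omega, hx'R⟩
      · exact hF.trans (Set.encard_le_encard (F_mono (Finset.subset_insert _ _) _ _))
      · exact noWin_star hI h3 hxd hx
      · exact noBase_star h3 hxd hx
      · rw [Finset.mem_insert, Sym2.eq_iff, not_or]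
        refine ⟨by omega, ?_⟩
        rw [Sym2.eq_swap]
        exact hx'B d
  · refine ⟨s(d, x), ⟨?_, ?_, hdx⟩, Or.inl ⟨c, d, hcd, Finset.mem_insert_of_mem hB, ?_⟩⟩
    · rw [Sym2.mk_isDiag_iff]
      exact hxd.symm
    · rw [Finset.mem_insert, not_or]
      refine ⟨fun h => hed h.symm, ?_⟩
      rw [Sym2.eq_swap]
      exact hx d
    · have hxF : x ∉ F B c d := fun h => hdx h.2.2.2
      refine (three_add_one hF hxF).trans (Set.encard_le_encard ?_)
      rw [Set.insert_subset_iff]
      refine ⟨⟨hxc, hxd, Finset.mem_insert_of_mem hcx, Finset.mem_insert_self _ _⟩, ?_⟩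
      exact F_mono (Finset.subset_insert _ _) _ _

/-- If `Y` has the move and owns a book with three pages, `X` cannot win with one edge and one end
of the base of the book of `Y` is in no base of a book with three pages of `X`, then `Y` prevents
`X` from winning by an infinite sequence of threats. -/
theorem DY_inf {R B : Finset E} {c d : ℕ} (hcd : c ≠ d) (hB : s(c, d) ∈ B)
    (hF : 3 ≤ (F B c d).encard) (hI : NoWin R B) (h3 : NoBase R d) : DY R B := by
  obtain ⟨x, hxn, hxR, hxB⟩ := exists_fresh R B (c + d + 1)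
  refine ⟨s(c, x), ⟨?_, ?_, ?_⟩, Or.inr (D_infPos ?_)⟩
  · rw [Sym2.mk_isDiag_iff]
    omega
  · rw [Sym2.eq_swap]
    exact hxR c
  · rw [Sym2.eq_swap]
    exact hxB c
  · refine ⟨c, d, x, hcd, Finset.mem_insert_of_mem hB, ?_, ?_, h3, Finset.mem_insert_self _ _, ?_,
      by omega, by omega, hxR⟩
    · exact hF.trans (Set.encard_le_encard (F_mono (Finset.subset_insert _ _) _ _))
    · exact hI.mono (Finset.Subset.refl _) (Finset.subset_insert _ _)
    · rw [Finset.mem_insert, Sym2.eq_iff, not_or]
      refine ⟨by omega, ?_⟩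
      rw [Sym2.eq_swap]
      exact hxB d

/-- `Y` owns a book with three pages and base `c d`. -/
def B3 (B : Finset E) (c d : ℕ) : Prop := c ≠ d ∧ s(c, d) ∈ B ∧ 3 ≤ (F B c d).encard

theorem B3.symm {B : Finset E} {c d : ℕ} (h : B3 B c d) : B3 B d c := by
  refine ⟨h.1.symm, ?_, ?_⟩
  · rw [Sym2.eq_swap]
    exact h.2.1
  · rw [F_comm]
    exact h.2.2

theorem DY_inf' {R B : Finset E} {c d : ℕ} (hB : B3 B c d) (hI : NoWin R B)
    (h3 : NoBase R c ∨ NoBase R d) : DY R B := by
  rcases h3 with h3 | h3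
  · exact DY_inf hB.symm.1 hB.symm.2.1 hB.symm.2.2 hI h3
  · exact DY_inf hB.1 hB.2.1 hB.2.2 hI h3

end Pool.Agent.helper55.Book
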