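import Pool.Agent.helper55.Book.Star

set_option autoImplicit false

/-!
# The case in which `X` has at most seven edges, and safe positions
-/

namespace Pool.Agent.helper55.Book

open Finset

theorem star_of_seven {R B : Finset E} {g : E} (hcard : R.card ≤ 8)
    (hdis : ∀ e ∈ R, e ∉ B) (hdiag : ∀ e ∈ R, ¬ e.IsDiag)
    (hgR : g ∉ R) (hG : G (insert g R)) : ∃ a b, Star R (insert g B) a b := by
  obtain ⟨a, b, hab, he, hF⟩ := hG
  obtain ⟨P, hP, hPF⟩ := exists_finset (k := 4) hF
  have haP : a ∉ P := fun h => (hPF a h).1 rfl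
  have hbP : b ∉ P := fun h => (hPF b h).2.1 rfl
  set T := ((insert b P).image fun x => s(a, x)) ∪ (P.image fun x => s(b, x)) with hT
  have hsub : T ⊆ insert g R := by
    intro e he'
    rw [hT, mem_union, mem_image, mem_image] at he'
    rcases he' with ⟨x, hx, rfl⟩ | ⟨x, hx, rfl⟩
    · rw [mem_insert] at hx
      rcases hx with rfl | hx
      · exact he
      · exact (hPF x hx).2.2.1
    · exact (hPF x hx).2.2.2
  have hdis' : Disjoint ((insert b P).image fun x => s(a, x)) (P.image fun x => s(b, x)) := by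
    rw [disjoint_left]
    intro e h1 h2
    rw [mem_image] at h1 h2
    obtain ⟨x, hx, rfl⟩ := h1
    obtain ⟨y, hy, h3⟩ := h2
    rw [Sym2.eq_iff] at h3
    rcases h3 with ⟨h4, _⟩ | ⟨_, h4⟩
    · exact hab h4.symm
    · exact (hPF y hy).1 h4
  have hTcard : T.card = 9 := by
    rw [hT, card_union_of_disjoint hdis', card_image_mk, card_image_mk,
      card_insert_of_notMem hbP, hP]
  have hTeq : T = insert g R := by
    refine Finset.eq_of_subset_of_card_le hsub ?_
    rw [hTcard]
    exact (card_insert_le _ _).trans (by omega)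
  have hedge : ∀ u v, s(u, v) ∈ R → (u = a ∧ v = b) ∨ (u = b ∧ v = a) ∨
      ((u = a ∨ u = b) ∧ v ∈ P) ∨ ((v = a ∨ v = b) ∧ u ∈ P) := by
    intro u v huv
    have h1 : s(u, v) ∈ T := by
      rw [hTeq]
      exact mem_insert_of_mem huv
    rw [hT, mem_union, mem_image, mem_image] at h1
    rcases h1 with ⟨x, hx, h2⟩ | ⟨x, hx, h2⟩
    · rw [mem_insert] at hx
      rw [Sym2.eq_iff] at h2
      rcases h2 with ⟨h3, h4⟩ | ⟨h3, h4⟩
      · rcases hx with hx | hx
        · exact Or.inl ⟨h3.symm, by rw [← h4, hx]⟩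
        · exact Or.inr (Or.inr (Or.inl ⟨Or.inl h3.symm, h4 ▸ hx⟩))
      · rcases hx with hx | hx
        · exact Or.inr (Or.inl ⟨by rw [← h4, hx], h3.symm⟩)
        · exact Or.inr (Or.inr (Or.inr ⟨Or.inl h3.symm, h4 ▸ hx⟩))
    · rw [Sym2.eq_iff] at h2
      rcases h2 with ⟨h3, h4⟩ | ⟨h3, h4⟩
      · exact Or.inr (Or.inr (Or.inl ⟨Or.inr h3.symm, h4 ▸ hx⟩))
      · exact Or.inr (Or.inr (Or.inr ⟨Or.inr h3.symm, h4 ▸ hx⟩))
  have hpage : ∀ s, (s = a ∨ s = b) → ∀ x ∈ P, s(s, x) ∈ R ∨ s(s, x) ∈ insert g B := by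
    intro s hs x hx
    have h1 : s(s, x) ∈ insert g R := by
      rcases hs with rfl | rfl
      · exact (hPF x hx).2.2.1
      · exact (hPF x hx).2.2.2
    rw [mem_insert] at h1
    rcases h1 with h1 | h1
    · exact Or.inr (h1 ▸ mem_insert_self _ _)
    · exact Or.inl h1
  have hends : ∀ s o, Ends a b s o → (s = a ∨ s = b) ∧ (o = a ∨ o = b) ∧
      (∀ x, (x = a ∨ x = b) → x ≠ s → x = o) := by
    rintro s o (⟨rfl, rfl⟩ | ⟨rfl, rfl⟩)
    · exact ⟨Or.inl rfl, Or.inr rfl, fun x hx hne => hx.resolve_left hne⟩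
    · exact ⟨Or.inr rfl, Or.inl rfl, fun x hx hne => hx.resolve_right hne⟩
  refine ⟨a, b, hab, ?_, hdiag, ?_, ?_, ?_, ?_, ?_⟩
  · intro e' he'
    rw [mem_insert, not_or]
    refine ⟨?_, hdis e' he'⟩
    rintro rfl
    exact hgR he'
  · intro s o hs x hx
    obtain ⟨h1, h2, h3⟩ := hends s o hs
    have hsP : s ∉ P := by
      rcases h1 with rfl | rfl
      · exact haP
      · exact hbP
    have hxs : x ≠ s := by
      rintro rfl
      exact hdiag _ hx rfl
    rcases hedge s x hx with h4 | h4 | h4 | h4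
    · exact Or.inl (h3 x (Or.inr h4.2) hxs)
    · exact Or.inl (h3 x (Or.inl h4.2) hxs)
    · exact Or.inr (hpage o h2 x h4.2)
    · exact absurd h4.2 hsP
  · -- the codegree of `a` and `b`
    have hg : g ∈ T := by
      rw [hTeq]
      exact mem_insert_self _ _
    have hFP : F R a b ⊆ P := by
      rintro x ⟨hxa, hxb, h1, _⟩
      rcases hedge a x h1 with h4 | h4 | h4 | h4
      · exact absurd h4.2 hxb
      · exact absurd h4.1 hab
      · exact h4.2
      · exact absurd h4.2 haP
    have hcase : g = s(a, b) ∨ ∃ x ∈ P, x ∉ F R a b := by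
      rw [hT, mem_union, mem_image, mem_image] at hg
      rcases hg with ⟨x, hx, h2⟩ | ⟨x, hx, h2⟩
      · rw [mem_insert] at hx
        rcases hx with rfl | hx
        · exact Or.inl h2.symm
        · exact Or.inr ⟨x, hx, fun h3 => hgR (h2 ▸ h3.2.2.1)⟩
      · exact Or.inr ⟨x, hx, fun h3 => hgR (h2 ▸ h3.2.2.2)⟩
    rcases hcase with h1 | ⟨x, hx, hxF⟩
    · right
      rw [h1]
      exact mem_insert_self _ _
    · left
      have h2 : F R a b ⊆ ((P.erase x : Finset ℕ) : Set ℕ) := by
        intro y hy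
        rw [Finset.mem_coe, mem_erase]
        refine ⟨?_, hFP hy⟩
        rintro rfl
        exact hxF hy
      refine (Set.encard_le_encard h2).trans ?_
      rw [Set.encard_coe_eq_coe_finsetCard, card_erase_of_mem hx, hP]
      norm_num
  · rintro x ⟨h1, h2, h3, h4, h5, h6⟩
    have hxP : x ∉ P := by
      intro hx
      rcases hpage a (Or.inl rfl) x hx with h7 | h7
      · exact h3 h7
      · exact h4 h7
    have : {y | s(x, y) ∈ R} = ∅ := by
      ext y
      simp only [Set.mem_empty_iff_false, iff_false]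
      intro hy
      rcases hedge x y hy with h7 | h7 | h7 | h7
      · exact h1 h7.1
      · exact h2 h7.1
      · rcases h7.1 with h8 | h8
        · exact h1 h8
        · exact h2 h8
      · exact hxP h7.2
    rw [this]
    simp
  · intro u v huv hua hub hva hvb _
    have h1 : s(u, v) ∉ R := by
      intro h2
      rcases hedge u v h2 with h3 | h3 | h3 | h3
      · exact hua h3.1
      · exact hub h3.1
      · rcases h3.1 with h4 | h4
        · exact hua h4
        · exact hub h4
      · rcases h3.1 with h4 | h4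
        · exact hva h4
        · exact hvb h4
    refine ⟨?_, fun h2 => absurd h2 h1⟩
    have h2 : F R u v ⊆ {a, b} := by
      rintro x ⟨_, _, h3, _⟩
      rcases hedge u x h3 with h4 | h4 | h4 | h4
      · exact absurd h4.1 hua
      · exact absurd h4.1 hub
      · rcases h4.1 with h5 | h5
        · exact absurd h5 hua
        · exact absurd h5 hub
      · exact h4.1
    have h3 : (2 : ℕ∞) = 1 + 1 := by norm_num
    refine (Set.encard_le_encard h2).trans ((Set.encard_insert_le _ _).trans ?_)
    rw [Set.encard_singleton, h3]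
  · intro s o hs v hva hvb _
    obtain ⟨h1, h2, h3⟩ := hends s o hs
    have h4 : FA R (insert g B) a b s v ⊆ {o} := by
      rintro x ⟨hxs, _, h5, _⟩
      rcases hedge v x h5 with h6 | h6 | h6 | h6
      · exact absurd h6.1 hva
      · exact absurd h6.1 hvb
      · rcases h6.1 with h7 | h7
        · exact absurd h7 hva
        · exact absurd h7 hvb
      · exact h3 x h6.1 hxs
    have h5 : (FA R (insert g B) a b s v).encard ≤ 1 := by
      refine (Set.encard_le_encard h4).trans ?_
      rw [Set.encard_singleton]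
    exact ⟨h5.trans (by decide), fun _ => h5⟩

/-- If `X` has at most seven edges and `Y` owns a book with three pages, `Y` is safe. -/
theorem D_seven {R B : Finset E} {c d : ℕ} (hB : B3 B c d) (hdis : ∀ e ∈ R, e ∉ B)
    (hdiag : ∀ e ∈ R, ¬ e.IsDiag) (hcard : R.card ≤ 7) : D R B := by
  refine D_intro fun e he => ?_
  have hc : (insert e R).card ≤ 8 := (card_insert_le _ _).trans (by omega)
  have hdis' : ∀ e' ∈ insert e R, e' ∉ B := by
    intro e' he'
    rw [mem_insert] at he'
    rcases he' with rfl | he'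
    · exact he.2.2
    · exact hdis _ he'
  have hdiag' : ∀ e' ∈ insert e R, ¬ e'.IsDiag := by
    intro e' he'
    rw [mem_insert] at he'
    rcases he' with rfl | he'
    · exact he.1
    · exact hdiag _ he'
  have hnG : ¬ G (insert e R) := fun hG => by
    have := card_ge_of_G hG
    omega
  refine ⟨hnG, ?_⟩
  by_cases hNW : NoWin (insert e R) B
  · exact DY_inf' hB hNW (noBase_or hB hdis' (by omega))
  · unfold NoWin at hNW
    push Not at hNW
    obtain ⟨g, hgd, hgB, hG⟩ := hNW
    have hgR : g ∉ insert e R := by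
      intro h
      rw [insert_eq_of_mem h] at hG
      exact hnG hG
    obtain ⟨a, b, hst⟩ := star_of_seven hc hdis' hdiag' hgR hG
    refine ⟨g, ⟨hgd, hgR, hgB⟩, Or.inr (hst.D (c := c) (d := d) ⟨hB.1, mem_insert_of_mem hB.2.1,
      hB.2.2.trans (Set.encard_le_encard (F_mono (subset_insert _ _) _ _))⟩)⟩

/-! ### Safe positions -/

/-- `X` needs more than `k` further edges for a win. -/
def Safe (k : ℕ) (R B : Finset E) : Prop :=
  ∀ T : Finset E, T.card ≤ k → (∀ g ∈ T, g ∉ B) → ¬ G (R ∪ T)

/-- `X` needs more than `k` further edges for a book with three pages with `d` in its base. -/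
def SafeBase (k : ℕ) (R B : Finset E) (d : ℕ) : Prop :=
  ∀ T : Finset E, T.card ≤ k → (∀ g ∈ T, g ∉ B) → NoBase (R ∪ T) d

theorem Safe.union {k l : ℕ} {R B H : Finset E} (h : Safe (k + l) R B) (hH : H.card ≤ l)
    (hHB : ∀ g ∈ H, g ∉ B) : Safe k (R ∪ H) B := by
  intro T hT hTB hG
  refine h (H ∪ T) ((card_union_le _ _).trans (by omega)) ?_ ?_
  · intro g hg
    rw [mem_union] at hg
    rcases hg with hg | hg
    · exact hHB g hg
    · exact hTB g hg
  · rwa [← union_assoc]

theorem SafeBase.union {k l : ℕ} {R B H : Finset E} {d : ℕ} (h : SafeBase (k + l) R B d)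
    (hH : H.card ≤ l) (hHB : ∀ g ∈ H, g ∉ B) : SafeBase k (R ∪ H) B d := by
  intro T hT hTB
  rw [union_assoc]
  refine h (H ∪ T) ((card_union_le _ _).trans (by omega)) ?_
  intro g hg
  rw [mem_union] at hg
  rcases hg with hg | hg
  · exact hHB g hg
  · exact hTB g hg

theorem Safe.mono {k l : ℕ} {R B : Finset E} (h : Safe k R B) (hl : l ≤ k) : Safe l R B :=
  fun T hT hTB => h T (hT.trans hl) hTB

theorem Safe.not_G {k : ℕ} {R B : Finset E} (h : Safe (k + 1) R B) {e : E} (he : e ∉ B) :
    ¬ G (insert e R) := by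
  have := h {e} (by simp) (by simpa using he)
  rwa [union_comm, ← insert_eq] at this

theorem Safe.noWin {k : ℕ} {R B : Finset E} (h : Safe (k + 1) R B) : NoWin R B :=
  fun _ _ hg => h.not_G hg

theorem Safe.insert {k : ℕ} {R B : Finset E} (h : Safe (k + 1) R B) {e : E} (he : e ∉ B) :
    Safe k (insert e R) B := by
  have := h.union (k := k) (l := 1) (H := {e}) (by simp) (by simpa using he)
  rwa [union_comm, ← insert_eq] at this

theorem SafeBase.noBase {k : ℕ} {R B : Finset E} {d : ℕ} (h : SafeBase k R B d) :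
    NoBase R d := by
  have := h ∅ (by simp) (by simp)
  rwa [union_empty] at this

theorem SafeBase.insert {k : ℕ} {R B : Finset E} {d : ℕ} (h : SafeBase (k + 1) R B d) {e : E}
    (he : e ∉ B) : SafeBase k (insert e R) B d := by
  have := h.union (k := k) (l := 1) (H := {e}) (by simp) (by simpa using he)
  rwa [union_comm, ← insert_eq] at this

theorem safe_of_card {k : ℕ} {R B : Finset E} (h : R.card + k ≤ 8) : Safe k R B := by
  intro T hT _ hG
  have h1 := card_ge_of_G hG
  have h2 := card_union_le R T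
  omega

/-- If `X` needs at least three more edges and cannot reach books with three pages and bases
at both ends of the base of `Y`, then `Y` is safe. -/
theorem D_safe {R B : Finset E} {c d : ℕ} (hB : B3 B c d) (hdis : ∀ e ∈ R, e ∉ B)
    (hS : Safe 2 R B) (h : R.card ≤ 9 ∨ SafeBase 1 R B c ∨ SafeBase 1 R B d) : D R B := by
  refine D_quiet hB fun e he => ⟨hS.not_G he.2.2, (hS.insert he.2.2).noWin, ?_⟩
  rcases h with h | h | h
  · refine noBase_or hB ?_ ((card_insert_le _ _).trans (by omega))
    intro e' he'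
    rw [mem_insert] at he'
    rcases he' with rfl | he'
    · exact he.2.2
    · exact hdis _ he'
  · exact Or.inl (h.insert he.2.2).noBase
  · exact Or.inr (h.insert he.2.2).noBase

end Pool.Agent.helper55.Book
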