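import Pool.Agent.helper55.Book.Term

set_option autoImplicit false

/-!
# Positions in which `X` owns a book with three pages but can only make useless threats
-/

namespace Pool.Agent.helper55.Book

/-- `s` and `o` are `a` and `b` in some order. -/
def Ends (a b s o : ℕ) : Prop := (s = a ∧ o = b) ∨ (s = b ∧ o = a)

/-- The vertex `x` can be joined to `a` and to `b`. -/
def Avail (R B : Finset E) (a b x : ℕ) : Prop :=
  x ≠ a ∧ x ≠ b ∧ s(a, x) ∉ R ∧ s(a, x) ∉ B ∧ s(b, x) ∉ R ∧ s(b, x) ∉ B

/-- Common neighbours of `s` and `v`, counting also the vertices which can be joined to `s`. -/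
def FA (R B : Finset E) (a b s v : ℕ) : Set ℕ :=
  {x | x ≠ s ∧ x ≠ v ∧ s(v, x) ∈ R ∧ (s(s, x) ∈ R ∨ Avail R B a b x)}

structure Star (R B : Finset E) (a b : ℕ) : Prop where
  hab : a ≠ b
  dis : ∀ e ∈ R, e ∉ B
  diag : ∀ e ∈ R, ¬ e.IsDiag
  half : ∀ s o, Ends a b s o → ∀ x, s(s, x) ∈ R → x = o ∨ s(o, x) ∈ R ∨ s(o, x) ∈ B
  full : (F R a b).encard ≤ 3 ∨ s(a, b) ∈ B
  iso : ∀ x, Avail R B a b x → {y | s(x, y) ∈ R}.encard ≤ 1
  far : ∀ u v, u ≠ v → u ≠ a → u ≠ b → v ≠ a → v ≠ b → s(u, v) ∉ B →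
    (F R u v).encard ≤ 2 ∧ (s(u, v) ∈ R → (F R u v).encard ≤ 1)
  near : ∀ s o, Ends a b s o → ∀ v, v ≠ a → v ≠ b → s(s, v) ∉ B →
    (FA R B a b s v).encard ≤ 2 ∧ (s(s, v) ∈ R → (FA R B a b s v).encard ≤ 1)

theorem Ends.swap {a b s o : ℕ} (h : Ends a b s o) : Ends a b o s := h.symm.imp id id |>.elim
  (fun h => Or.inl ⟨h.2, h.1⟩) (fun h => Or.inr ⟨h.2, h.1⟩)

theorem Ends.ne {a b s o : ℕ} (h : Ends a b s o) (hab : a ≠ b) : s ≠ o := by
  rcases h with ⟨rfl, rfl⟩ | ⟨rfl, rfl⟩
  · exact hab
  · exact hab.symm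

theorem Ends.avail {R B : Finset E} {a b s o : ℕ} (h : Ends a b s o) {x : ℕ}
    (hx : Avail R B a b x) :
    x ≠ s ∧ x ≠ o ∧ s(s, x) ∉ R ∧ s(s, x) ∉ B ∧ s(o, x) ∉ R ∧ s(o, x) ∉ B := by
  obtain ⟨h1, h2, h3, h4, h5, h6⟩ := hx
  rcases h with ⟨rfl, rfl⟩ | ⟨rfl, rfl⟩
  · exact ⟨h1, h2, h3, h4, h5, h6⟩
  · exact ⟨h2, h1, h5, h6, h3, h4⟩

/-- The codegree bound for all pairs except `a b`. -/
theorem Star.codeg {R B : Finset E} {a b : ℕ} (h : Star R B a b) {u v : ℕ} (huv : u ≠ v)
    (hne : s(u, v) ≠ s(a, b)) (hB : s(u, v) ∉ B) :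
    (F R u v).encard ≤ 2 ∧ (s(u, v) ∈ R → (F R u v).encard ≤ 1) := by
  have key : ∀ s o v, Ends a b s o → s ≠ v → s(s, v) ≠ s(a, b) → s(s, v) ∉ B →
      (F R s v).encard ≤ 2 ∧ (s(s, v) ∈ R → (F R s v).encard ≤ 1) := by
    intro s o v hs hsv hne hB
    have hv : v ≠ a ∧ v ≠ b := by
      rcases hs with ⟨rfl, rfl⟩ | ⟨rfl, rfl⟩
      · refine ⟨hsv.symm, ?_⟩
        rintro rfl
        exact hne rfl
      · refine ⟨?_, hsv.symm⟩
        rintro rfl
        exact hne Sym2.eq_swap
    obtain ⟨h1, h2⟩ := h.near s o hs v hv.1 hv.2 hB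
    have hsub : F R s v ⊆ FA R B a b s v := fun x hx => ⟨hx.1, hx.2.1, hx.2.2.2, Or.inl hx.2.2.1⟩
    exact ⟨(Set.encard_le_encard hsub).trans h1,
      fun h3 => (Set.encard_le_encard hsub).trans (h2 h3)⟩
  by_cases hua : u = a
  · exact key u b v (Or.inl ⟨hua, rfl⟩) huv hne hB
  by_cases hub : u = b
  · exact key u a v (Or.inr ⟨hub, rfl⟩) huv hne hB
  have hne' : s(v, u) ≠ s(a, b) := by rwa [Sym2.eq_swap]
  have hB' : s(v, u) ∉ B := by rwa [Sym2.eq_swap]
  by_cases hva : v = a
  · have := key v b u (Or.inl ⟨hva, rfl⟩) huv.symm hne' hB'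
    rwa [F_comm, Sym2.eq_swap] at this
  by_cases hvb : v = b
  · have := key v a u (Or.inr ⟨hvb, rfl⟩) huv.symm hne' hB'
    rwa [F_comm, Sym2.eq_swap] at this
  exact h.far u v huv hua hub hva hvb hB

theorem le_three {S T : Set ℕ} (h : T.encard ≤ S.encard + 1) (hS : S.encard ≤ 2) :
    ¬ 4 ≤ T.encard := by
  intro h4
  have h5 : (4 : ℕ∞) ≤ 2 + 1 := h4.trans (h.trans (add_le_add_left hS 1))
  exact absurd h5 (by decide)

/-- Two more edges give `X` a win only if they join a vertex to `a` and to `b`. -/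
theorem Star.two {R B : Finset E} {a b : ℕ} (h : Star R B a b) {e g : E}
    (heB : e ∉ B) (hgB : g ∉ B) (hG : G (insert g (insert e R))) :
    ∃ s o x, Ends a b s o ∧ Avail R B a b x ∧ e = s(s, x) ∧ g = s(o, x) := by
  obtain ⟨u, v, huv, huvR, hF⟩ := hG
  have hnB : ∀ e' ∈ insert g (insert e R), e' ∉ B := by
    intro e' he'
    rw [Finset.mem_insert, Finset.mem_insert] at he'
    rcases he' with rfl | rfl | he'
    · exact hgB
    · exact heB
    · exact h.dis _ he'
  by_cases hne : s(u, v) = s(a, b)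
  · -- the base is `a b`
    have hab : s(a, b) ∈ insert g (insert e R) := hne ▸ huvR
    have habB := hnB _ hab
    have hF' : 4 ≤ (F (insert g (insert e R)) a b).encard := by
      rw [Sym2.eq_iff] at hne
      rcases hne with ⟨rfl, rfl⟩ | ⟨rfl, rfl⟩
      · exact hF
      · rwa [F_comm]
    have h3 : (F R a b).encard ≤ 3 := h.full.resolve_right habB
    have hnot : ¬ F (insert g (insert e R)) a b ⊆ F R a b := by
      intro hsub
      have h4 : (4 : ℕ∞) ≤ 3 := hF'.trans ((Set.encard_le_encard hsub).trans h3)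
      exact absurd h4 (by decide)
    rw [Set.not_subset] at hnot
    obtain ⟨x, hx, hx'⟩ := hnot
    obtain ⟨hxa, hxb, h5, h6⟩ := hx
    have h5B := hnB _ h5
    have h6B := hnB _ h6
    have h5R : s(a, x) ∉ R := by
      intro h7
      rcases h.half a b (Or.inl ⟨rfl, rfl⟩) x h7 with h8 | h8 | h8
      · exact hxb h8
      · exact hx' ⟨hxa, hxb, h7, h8⟩
      · exact h6B h8
    have h6R : s(b, x) ∉ R := by
      intro h7
      rcases h.half b a (Or.inr ⟨rfl, rfl⟩) x h7 with h8 | h8 | h8
      · exact hxa h8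
      · exact hx' ⟨hxa, hxb, h8, h7⟩
      · exact h5B h8
    have hav : Avail R B a b x := ⟨hxa, hxb, h5R, h5B, h6R, h6B⟩
    rw [Finset.mem_insert, Finset.mem_insert] at h5 h6
    have hne2 : s(a, x) ≠ s(b, x) := by
      intro h7
      rw [Sym2.eq_iff] at h7
      rcases h7 with ⟨h7, _⟩ | ⟨h7, _⟩
      · exact h.hab h7
      · exact hxa h7.symm
    rcases h5 with h5 | h5 | h5
    · rcases h6 with h6 | h6 | h6
      · exact absurd (h5.trans h6.symm) hne2
      · exact ⟨b, a, x, Or.inr ⟨rfl, rfl⟩, hav, h6.symm, h5.symm⟩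
      · exact absurd h6 h6R
    · rcases h6 with h6 | h6 | h6
      · exact ⟨a, b, x, Or.inl ⟨rfl, rfl⟩, hav, h5.symm, h6.symm⟩
      · exact absurd (h5.trans h6.symm) hne2
      · exact absurd h6 h6R
    · exact absurd h5 h5R
  · exfalso
    have huvB := hnB _ huvR
    obtain ⟨h1, h2⟩ := h.codeg huv hne huvB
    rw [Finset.mem_insert, Finset.mem_insert] at huvR
    rcases huvR with h3 | h3 | h3
    · rw [← h3, F_insert_self] at hF
      exact le_three (F_insert_le R e u v) h1 hF
    · rw [← h3, Finset.insert_comm, F_insert_self] at hF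
      exact le_three (F_insert_le R g u v) h1 hF
    · refine le_three (F_insert_le (insert e R) g u v) ?_ hF
      have h4 : (2 : ℕ∞) = 1 + 1 := by norm_num
      rw [h4]
      exact (F_insert_le R e u v).trans (add_le_add_left (h2 h3) 1)

theorem Star.not_G {R B : Finset E} {a b : ℕ} (h : Star R B a b) {e : E} (heB : e ∉ B) :
    ¬ G (insert e R) := by
  intro hG
  obtain ⟨s, o, x, hs, hx, h1, h2⟩ := h.two heB heB (G_mono (Finset.subset_insert _ _) hG)
  rw [h1, Sym2.eq_iff] at h2
  rcases h2 with ⟨h2, _⟩ | ⟨_, h2⟩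
  · exact hs.ne h.hab h2
  · exact (hs.avail hx).2.1 h2

/-- `Y` answers a move at an available vertex. -/
theorem Star.step {R B : Finset E} {a b : ℕ} (h : Star R B a b) {s o x : ℕ} (hs : Ends a b s o)
    (hx : Avail R B a b x) : Star (insert s(s, x) R) (insert s(o, x) B) a b := by
  obtain ⟨hxs, hxo, hsR, hsB, hoR, hoB⟩ := hs.avail hx
  have hso : s ≠ o := hs.ne h.hab
  have hxa : x ≠ a := hx.1
  have hxb : x ≠ b := hx.2.1
  -- membership in the new edge sets
  have hR : ∀ u v, s(u, v) ∈ insert s(s, x) R → (u = s ∧ v = x) ∨ (u = x ∧ v = s) ∨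
      s(u, v) ∈ R := by
    intro u v huv
    rw [Finset.mem_insert, Sym2.eq_iff] at huv
    tauto
  have hsne : s(s, x) ≠ s(o, x) := by
    intro h7
    rw [Sym2.eq_iff] at h7
    rcases h7 with ⟨h7, _⟩ | ⟨h7, _⟩
    · exact hso h7
    · exact hxs h7.symm
  -- available vertices
  have hav : ∀ y, Avail (insert s(s, x) R) (insert s(o, x) B) a b y → Avail R B a b y ∧ y ≠ x := by
    intro y hy
    obtain ⟨h1, h2, h3, h4, h5, h6⟩ := hy
    rw [Finset.mem_insert, not_or] at h3 h4 h5 h6
    refine ⟨⟨h1, h2, h3.2, h4.2, h5.2, h6.2⟩, ?_⟩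
    rintro rfl
    rcases hs with ⟨rfl, rfl⟩ | ⟨rfl, rfl⟩
    · exact h3.1 rfl
    · exact h5.1 rfl
  refine ⟨h.hab, ?_, ?_, ?_, ?_, ?_, ?_, ?_⟩
  · intro e he
    rw [Finset.mem_insert] at he
    rw [Finset.mem_insert, not_or]
    rcases he with rfl | he
    · exact ⟨hsne, hsB⟩
    · refine ⟨?_, h.dis e he⟩
      rintro rfl
      exact hoR he
  · intro e he
    rw [Finset.mem_insert] at he
    rcases he with rfl | he
    · rw [Sym2.mk_isDiag_iff]
      exact hxs.symm
    · exact h.diag e he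
  · intro s' o' hs' y hy
    rcases hR s' y hy with ⟨h1, h2⟩ | ⟨h1, h2⟩ | h1
    · subst h1 h2
      have : o' = o := by
        rcases hs with ⟨rfl, rfl⟩ | ⟨rfl, rfl⟩ <;> rcases hs' with ⟨h3, h4⟩ | ⟨h3, h4⟩ <;> omega
      subst this
      exact Or.inr (Or.inr (Finset.mem_insert_self _ _))
    · exfalso
      rcases hs' with ⟨h3, _⟩ | ⟨h3, _⟩
      · exact hxa (h1.symm.trans h3)
      · exact hxb (h1.symm.trans h3)
    · rcases h.half s' o' hs' y h1 with h2 | h2 | h2
      · exact Or.inl h2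
      · exact Or.inr (Or.inl (Finset.mem_insert_of_mem h2))
      · exact Or.inr (Or.inr (Finset.mem_insert_of_mem h2))
  · rcases h.full with h1 | h1
    · left
      refine (Set.encard_le_encard ?_).trans h1
      rintro y ⟨hya, hyb, h2, h3⟩
      have hyx : y ≠ x := by
        rintro rfl
        rcases hs with ⟨rfl, rfl⟩ | ⟨rfl, rfl⟩
        · rcases hR _ _ h3 with h4 | h4 | h4
          · exact hso h4.1.symm
          · exact hxo h4.1.symm
          · exact hoR h4
        · rcases hR _ _ h2 with h4 | h4 | h4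
          · exact hso h4.1.symm
          · exact hxo h4.1.symm
          · exact hoR h4
      refine ⟨hya, hyb, ?_, ?_⟩
      · rcases hR _ _ h2 with h4 | h4 | h4
        · exact absurd h4.2 hyx
        · exact absurd h4.1.symm hxa
        · exact h4
      · rcases hR _ _ h3 with h4 | h4 | h4
        · exact absurd h4.2 hyx
        · exact absurd h4.1.symm hxb
        · exact h4
    · exact Or.inr (Finset.mem_insert_of_mem h1)
  · intro y hy
    obtain ⟨hy1, hyx⟩ := hav y hy
    have hys : y ≠ s := (hs.avail hy1).1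
    refine (Set.encard_le_encard ?_).trans (h.iso y hy1)
    intro z hz
    rcases hR _ _ hz with h4 | h4 | h4
    · exact absurd h4.1 hys
    · exact absurd h4.1 hyx
    · exact h4
  · -- pairs not touching `a`, `b`
    have key : ∀ v, x ≠ v → v ≠ a → v ≠ b → s(x, v) ∉ B →
        (F (insert s(s, x) R) x v).encard ≤ 2 ∧
          (s(x, v) ∈ insert s(s, x) R → (F (insert s(s, x) R) x v).encard ≤ 1) := by
      intro v hxv hva hvb hB
      have hvs : v ≠ s := by
        rcases hs with ⟨rfl, _⟩ | ⟨rfl, _⟩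
        · exact hva
        · exact hvb
      have hsub : F (insert s(s, x) R) x v ⊆ insert s {y | s(x, y) ∈ R ∧ y ≠ v} := by
        rintro y ⟨h1, h2, h3, _⟩
        rcases hR _ _ h3 with h4 | h4 | h4
        · exact absurd h4.1 hxs
        · exact Or.inl h4.2
        · exact Or.inr ⟨h4, h2⟩
      have h1 := h.iso x hx
      constructor
      · refine (Set.encard_le_encard hsub).trans ((Set.encard_insert_le _ _).trans ?_)
        have h2 : {y | s(x, y) ∈ R ∧ y ≠ v}.encard ≤ 1 :=
          (Set.encard_le_encard (fun y hy => hy.1)).trans h1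
        have h4 : (2 : ℕ∞) = 1 + 1 := by norm_num
        rw [h4]
        exact add_le_add_left h2 1
      · intro h2
        have h3 : s(x, v) ∈ R := by
          rcases hR _ _ h2 with h4 | h4 | h4
          · exact absurd h4.1 hxs
          · exact absurd h4.2 hvs
          · exact h4
        have h4 : {y | s(x, y) ∈ R ∧ y ≠ v} = ∅ := by
          ext y
          simp only [Set.mem_empty_iff_false, iff_false]
          rintro ⟨h5, h6⟩
          rw [Set.encard_le_one_iff] at h1
          exact h6 (h1 y v h5 h3)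
        rw [h4] at hsub
        refine (Set.encard_le_encard hsub).trans ?_
        simp
    intro u v huv hua hub hva hvb hB
    rw [Finset.mem_insert, not_or] at hB
    by_cases hux : u = x
    · subst hux
      exact key v huv hva hvb hB.2
    by_cases hvx : v = x
    · subst hvx
      have := key u (Ne.symm hux) hua hub (by
        rw [Sym2.eq_swap]
        exact hB.2)
      rw [F_comm]
      refine ⟨this.1, fun h1 => this.2 (mem_swap h1)⟩
    · have h1 : F (insert s(s, x) R) u v = F R u v := by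
        refine Set.Subset.antisymm ?_ (F_mono (Finset.subset_insert _ _) _ _)
        rintro y ⟨h1, h2, h3, h4⟩
        have hus : u ≠ s := by
          rcases hs with ⟨rfl, _⟩ | ⟨rfl, _⟩
          · exact hua
          · exact hub
        have hvs : v ≠ s := by
          rcases hs with ⟨rfl, _⟩ | ⟨rfl, _⟩
          · exact hva
          · exact hvb
        refine ⟨h1, h2, ?_, ?_⟩
        · rcases hR _ _ h3 with h4 | h4 | h4
          · exact absurd h4.1 hus
          · exact absurd h4.1 hux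
          · exact h4
        · rcases hR _ _ h4 with h4 | h4 | h4
          · exact absurd h4.1 hvs
          · exact absurd h4.1 hvx
          · exact h4
      rw [h1]
      obtain ⟨h2, h3⟩ := h.far u v huv hua hub hva hvb hB.2
      refine ⟨h2, fun h4 => h3 ?_⟩
      rcases hR _ _ h4 with h5 | h5 | h5
      · exact absurd h5.2 hvx
      · exact absurd h5.1 hux
      · exact h5
  · -- pairs touching `a` or `b`
    intro s' o' hs' v hva hvb hB
    rw [Finset.mem_insert, not_or] at hB
    have hs'x : s' ≠ x := by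
      rcases hs' with ⟨rfl, _⟩ | ⟨rfl, _⟩
      · exact hxa.symm
      · exact hxb.symm
    have hvs : v ≠ s := by
      rcases hs with ⟨rfl, _⟩ | ⟨rfl, _⟩
      · exact hva
      · exact hvb
    have hor : s' = s ∨ s' = o := by
      rcases hs with ⟨rfl, rfl⟩ | ⟨rfl, rfl⟩ <;> rcases hs' with ⟨h3, h4⟩ | ⟨h3, h4⟩
      · exact Or.inl h3
      · exact Or.inr h3
      · exact Or.inr h3
      · exact Or.inl h3
    by_cases hvx : v = x
    · subst hvx
      have hs's : s' = s := by
        rcases hor with h1 | h1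
        · exact h1
        · exact absurd (by rw [h1]) hB.1
      subst hs's
      have hsub : FA (insert s(s', v) R) (insert s(o, v) B) a b s' v ⊆ {y | s(v, y) ∈ R} := by
        rintro y ⟨h1, h2, h3, h4⟩
        rcases hR _ _ h3 with h5 | h5 | h5
        · exact absurd h5.1 hvs
        · exact absurd h5.2 h1
        · exact h5
      have h1 := (Set.encard_le_encard hsub).trans (h.iso v hx)
      exact ⟨h1.trans (by decide), fun _ => h1⟩
    · have hsub : FA (insert s(s, x) R) (insert s(o, x) B) a b s' v ⊆ FA R B a b s' v := by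
        rintro y ⟨h1, h2, h3, h4⟩
        have h5 : s(v, y) ∈ R := by
          rcases hR _ _ h3 with h5 | h5 | h5
          · exact absurd h5.1 hvs
          · exact absurd h5.1 hvx
          · exact h5
        refine ⟨h1, h2, h5, ?_⟩
        rcases h4 with h4 | h4
        · rcases hR _ _ h4 with h6 | h6 | h6
          · right
            rw [h6.2]
            exact hx
          · exact absurd h6.1 hs'x
          · exact Or.inl h6
        · exact Or.inr (hav y h4).1
      obtain ⟨h1, h2⟩ := h.near s' o' hs' v hva hvb hB.2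
      refine ⟨(Set.encard_le_encard hsub).trans h1, fun h3 =>
        (Set.encard_le_encard hsub).trans (h2 ?_)⟩
      rcases hR _ _ h3 with h5 | h5 | h5
      · exact absurd h5.2 hvx
      · exact absurd h5.1 hs'x
      · exact h5

theorem Star.noBase {R B : Finset E} {a b : ℕ} (h : Star R B a b) {e : E} (heB : e ∉ B) {d : ℕ}
    (hd : s(a, b) ∈ B ∨ (d ≠ a ∧ d ≠ b)) : NoBase (insert e R) d := by
  intro y hy hyR
  have hB : s(d, y) ∉ B := by
    rw [Finset.mem_insert] at hyR
    rcases hyR with h1 | h1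
    · rw [h1]
      exact heB
    · exact h.dis _ h1
  have hne : s(d, y) ≠ s(a, b) := by
    intro h1
    rcases hd with h2 | h2
    · rw [← h1] at h2
      exact hB h2
    · rw [Sym2.eq_iff] at h1
      rcases h1 with h1 | h1
      · exact h2.1 h1.1
      · exact h2.2 h1.1
  obtain ⟨h1, h2⟩ := h.codeg hy.symm hne hB
  rw [Finset.mem_insert] at hyR
  rcases hyR with h3 | h3
  · rw [← h3, F_insert_self]
    exact h1
  · have h4 : (2 : ℕ∞) = 1 + 1 := by norm_num
    rw [h4]
    exact (F_insert_le R e d y).trans (add_le_add_left (h2 h3) 1)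

theorem Star.D {R B : Finset E} {a b c d : ℕ} (h : Star R B a b) (hB : B3 B c d) :
    Pool.Agent.helper55.Book.D R B := by
  refine D_coind (fun R B => Star R B a b ∧ B3 B c d) ?_ ⟨h, hB⟩
  clear h hB
  rintro R B ⟨h, hB⟩ e he
  refine ⟨h.not_G he.2.2, ?_⟩
  by_cases hst : ∃ s o x, Ends a b s o ∧ Avail R B a b x ∧ e = s(s, x)
  · obtain ⟨s, o, x, hs, hx, rfl⟩ := hst
    obtain ⟨hxs, hxo, hsR, hsB, hoR, hoB⟩ := hs.avail hx
    have hso : s ≠ o := hs.ne h.hab
    refine ⟨s(o, x), ⟨?_, ?_, hoB⟩, Or.inr (Or.inr ⟨h.step hs hx, hB.1,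
      Finset.mem_insert_of_mem hB.2.1, hB.2.2.trans (Set.encard_le_encard
        (F_mono (Finset.subset_insert _ _) _ _))⟩)⟩
    · rw [Sym2.mk_isDiag_iff]
      exact hxo.symm
    · rw [Finset.mem_insert, not_or]
      refine ⟨?_, hoR⟩
      intro h7
      rw [Sym2.eq_iff] at h7
      rcases h7 with ⟨h7, _⟩ | ⟨h7, _⟩
      · exact hso h7.symm
      · exact hxo h7.symm
  · have hNW : NoWin (insert e R) B := by
      intro g _ hgB hG
      obtain ⟨s, o, x, hs, hx, h1, _⟩ := h.two he.2.2 hgB hG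
      exact hst ⟨s, o, x, hs, hx, h1⟩
    have hDY : DY (insert e R) B := by
      refine DY_inf' hB hNW ?_
      by_cases habB : s(a, b) ∈ B
      · exact Or.inl (h.noBase he.2.2 (Or.inl habB))
      · by_cases hc : c ≠ a ∧ c ≠ b
        · exact Or.inl (h.noBase he.2.2 (Or.inr hc))
        · right
          refine h.noBase he.2.2 (Or.inr ?_)
          have hcd := hB.1
          have hcdB := hB.2.1
          have h1 : s(c, d) ≠ s(a, b) := fun h1 => habB (h1 ▸ hcdB)
          constructor
          · rintro rfl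
            apply h1
            rw [Sym2.eq_iff]
            right
            refine ⟨?_, rfl⟩
            by_contra h2
            exact hc ⟨hcd, h2⟩
          · rintro rfl
            apply h1
            rw [Sym2.eq_iff]
            left
            refine ⟨?_, rfl⟩
            by_contra h2
            exact hc ⟨h2, hcd⟩
    obtain ⟨f, hf, h2⟩ := hDY
    exact ⟨f, hf, h2.imp id Or.inl⟩

end Pool.Agent.helper55.Book
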