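import Pool.Agent.helper55.Book.Inf

set_option autoImplicit false

/-!
# Positions in which `Y` owns a book with three pages and `X` has the move
-/

namespace Pool.Agent.helper55.Book

open Finset

theorem mk_left_inj {a x y : ℕ} (h : s(a, x) = s(a, y)) : x = y := by
  rw [Sym2.eq_iff] at h
  rcases h with ⟨_, h⟩ | ⟨h1, h2⟩
  · exact h
  · rw [h2, h1]

theorem exists_finset {S : Set ℕ} {k : ℕ} (h : (k : ℕ∞) ≤ S.encard) :
    ∃ P : Finset ℕ, P.card = k ∧ ∀ x ∈ P, x ∈ S := by
  obtain ⟨t, ht, hk⟩ := Set.exists_subset_encard_eq h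
  have hfin : t.Finite := Set.finite_of_encard_eq_coe hk
  refine ⟨hfin.toFinset, ?_, fun x hx => ht (by simpa using hx)⟩
  rw [hfin.encard_eq_coe_toFinset_card] at hk
  exact_mod_cast hk

theorem card_image_mk (a : ℕ) (P : Finset ℕ) :
    (P.image fun x => s(a, x)).card = P.card :=
  Finset.card_image_of_injective _ fun _ _ h => mk_left_inj h

theorem card_ge_of_G {R : Finset E} (h : G R) : 9 ≤ R.card := by
  obtain ⟨a, b, hab, he, hF⟩ := h
  obtain ⟨P, hP, hPF⟩ := exists_finset (k := 4) hF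
  have hbP : b ∉ P := fun h => (hPF b h).2.1 rfl
  have hsub : ((insert b P).image fun x => s(a, x)) ∪ (P.image fun x => s(b, x)) ⊆ R := by
    intro e he'
    rw [mem_union, mem_image, mem_image] at he'
    rcases he' with ⟨x, hx, rfl⟩ | ⟨x, hx, rfl⟩
    · rw [mem_insert] at hx
      rcases hx with rfl | hx
      · exact he
      · exact (hPF x hx).2.2.1
    · exact (hPF x hx).2.2.2
  have hdis : Disjoint ((insert b P).image fun x => s(a, x)) (P.image fun x => s(b, x)) := by
    rw [disjoint_left]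
    intro e h1 h2
    rw [mem_image] at h1 h2
    obtain ⟨x, hx, rfl⟩ := h1
    obtain ⟨y, hy, h3⟩ := h2
    rw [Sym2.eq_iff] at h3
    rcases h3 with ⟨h4, _⟩ | ⟨_, h4⟩
    · exact hab h4.symm
    · exact (hPF y hy).1 h4
  have := card_le_card hsub
  rw [card_union_of_disjoint hdis, card_image_mk, card_image_mk, card_insert_of_notMem hbP,
    hP] at this
  omega

theorem card_ge_of_bases {R : Finset E} {c d : ℕ} (hcd : c ≠ d) (hcdR : s(c, d) ∉ R)
    (hc : ¬ NoBase R c) (hd : ¬ NoBase R d) : 11 ≤ R.card := by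
  have key : ∀ c, ¬ NoBase R c → ∃ y, y ≠ c ∧ s(c, y) ∈ R ∧
      ∃ P : Finset ℕ, P.card = 3 ∧ ∀ x ∈ P, x ∈ F R c y := by
    intro c hc
    unfold NoBase at hc
    push Not at hc
    obtain ⟨y, hy, hyR, hF⟩ := hc
    refine ⟨y, hy, hyR, exists_finset (k := 3) ?_⟩
    have : (2 : ℕ∞) + 1 ≤ (F R c y).encard := Order.add_one_le_of_lt hF
    exact this
  obtain ⟨y, hyc, hyR, P, hP, hPF⟩ := key c hc
  obtain ⟨z, hzd, hzR, Q, hQ, hQF⟩ := key d hd
  have hyP : y ∉ P := fun h => (hPF y h).2.1 rfl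
  have hzQ : z ∉ Q := fun h => (hQF z h).2.1 rfl
  have hyd : y ≠ d := by
    rintro rfl
    exact hcdR hyR
  have hdP : d ∉ P := fun h => hcdR (hPF d h).2.2.1
  set T1 := (insert y P).image fun x => s(c, x) with hT1
  set T2 := (insert z Q).image fun x => s(d, x) with hT2
  set T3 := P.image fun x => s(y, x) with hT3
  have h1R : ∀ e ∈ T1, e ∈ R := by
    intro e he
    rw [hT1, mem_image] at he
    obtain ⟨x, hx, rfl⟩ := he
    rw [mem_insert] at hx
    rcases hx with rfl | hx
    · exact hyR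
    · exact (hPF x hx).2.2.1
  have h2R : ∀ e ∈ T2, e ∈ R := by
    intro e he
    rw [hT2, mem_image] at he
    obtain ⟨x, hx, rfl⟩ := he
    rw [mem_insert] at hx
    rcases hx with rfl | hx
    · exact hzR
    · exact (hQF x hx).2.2.1
  have h3R : ∀ e ∈ T3, e ∈ R := by
    intro e he
    rw [hT3, mem_image] at he
    obtain ⟨x, hx, rfl⟩ := he
    exact (hPF x hx).2.2.2
  have hd12 : Disjoint T1 T2 := by
    rw [disjoint_left]
    intro e h1 h2
    have h1' := h1R e h1
    rw [hT1, mem_image] at h1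
    rw [hT2, mem_image] at h2
    obtain ⟨x, hx, rfl⟩ := h1
    obtain ⟨x', hx', h3⟩ := h2
    rw [Sym2.eq_iff] at h3
    rcases h3 with ⟨h4, _⟩ | ⟨h4, _⟩
    · exact hcd h4.symm
    · rw [← h4] at h1'
      exact hcdR h1'
  have hd13 : Disjoint (T1 ∪ T2) T3 := by
    rw [disjoint_left]
    intro e h1 h2
    rw [hT3, mem_image] at h2
    obtain ⟨x', hx', rfl⟩ := h2
    rw [mem_union, hT1, hT2, mem_image, mem_image] at h1
    rcases h1 with ⟨x, hx, h3⟩ | ⟨x, hx, h3⟩ <;> rw [Sym2.eq_iff] at h3 <;>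
      rcases h3 with ⟨h4, h5⟩ | ⟨h4, h5⟩
    · exact hyc h4.symm
    · exact (hPF x' hx').1 h4.symm
    · exact hyd h4.symm
    · rw [← h4] at hx'
      exact hdP hx'
  have hsub : (T1 ∪ T2) ∪ T3 ⊆ R := by
    intro e he
    rw [mem_union, mem_union] at he
    rcases he with (he | he) | he
    · exact h1R e he
    · exact h2R e he
    · exact h3R e he
  have := card_le_card hsub
  rw [card_union_of_disjoint hd13, card_union_of_disjoint hd12, hT1, hT2, hT3, card_image_mk,
    card_image_mk, card_image_mk, card_insert_of_notMem hyP, card_insert_of_notMem hzQ, hP,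
    hQ] at this
  omega

theorem noBase_or {R B : Finset E} {c d : ℕ} (hB : B3 B c d) (hdis : ∀ e ∈ R, e ∉ B)
    (hcard : R.card ≤ 10) : NoBase R c ∨ NoBase R d := by
  by_contra h
  rw [not_or] at h
  have := card_ge_of_bases hB.1 (fun h2 => hdis _ h2 hB.2.1) h.1 h.2
  omega

/-- Quiet positions. -/
theorem D_quiet {R B : Finset E} {c d : ℕ} (hB : B3 B c d)
    (h : ∀ e, Free R B e → ¬ G (insert e R) ∧ NoWin (insert e R) B ∧
      (NoBase (insert e R) c ∨ NoBase (insert e R) d)) : D R B :=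
  D_intro fun e he => ⟨(h e he).1, DY_inf' hB (h e he).2.1 (h e he).2.2⟩

end Pool.Agent.helper55.Book
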